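import Pool.Agent.H511.Cm.Lin
import Pool.Graph.R_pool_sql_team_seeded_63374d34.N784.HC.Hk
import Pool.Graph.R_pool_sql_team_seeded_63374d34.N172.HS.Nrm

/-!
# Hecke characters with arbitrary integral infinity types
-/

set_option autoImplicit false
set_option linter.unusedSectionVars false

namespace Pool.Agent.H511.Cm

open NumberField IsDedekindDomain Filter Topology Complex
open Pool.Agent.Y773 (LI TPos)
open Pool.Agent.Y773.G (cj cj_cj cj_apply prod_emb sg sg_sq sg_TPos)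
open Pool.Agent.N784.HC (CTyp fty kp ph kap_kp kp_mul kp_mul_ph ph_fty kp_conj_mul sig_gen IsModK
  LI_entire TypK span_mul')
open Pool.Agent.N172.HS (arch nrmc IsHecke)
open Pool.Agent.Q92.AR (Pos)

section
variable {K : Type} [Field K] [NumberField K]

/-- the normalized type -/
noncomputable def nt (k : (K →+* ℂ) → ℤ) (φ : K →+* ℂ) : ℕ := (k φ - k (cj φ)).toNat

theorem nt_ctyp (k : (K →+* ℂ) → ℤ) : CTyp (nt k) := by
  intro φ
  unfold nt
  rw [cj_cj]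
  omega

/-- the type is not trivial -/
def NT (k : (K →+* ℂ) → ℤ) : Prop := ∃ φ, k φ ≠ k (cj φ)

theorem nt_ne {k : (K →+* ℂ) → ℤ} (h : NT k) : nt k ≠ 0 := by
  obtain ⟨φ, hφ⟩ := h
  intro h0
  have h1 : nt k φ = 0 := by rw [h0]; rfl
  have h2 : nt k (cj φ) = 0 := by rw [h0]; rfl
  unfold nt at h1 h2
  rw [cj_cj] at h2
  omega

theorem nt_eq_zero {k : (K →+* ℂ) → ℤ} (h : ¬ NT k) : nt k = 0 := by
  funext φ
  unfold NT at h
  push Not at h
  unfold nt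
  rw [h φ]
  simp

theorem conj_unit {z : ℂ} (hz : z ≠ 0) :
    (starRingEnd ℂ) (z / (‖z‖ : ℂ)) = (z / (‖z‖ : ℂ))⁻¹ := by
  have hn : (‖z‖ : ℂ) ≠ 0 := by exact_mod_cast norm_ne_zero_iff.2 hz
  rw [map_div₀, Complex.conj_ofReal, inv_div, div_eq_div_iff hn hz, mul_comm, Complex.mul_conj,
    Complex.normSq_eq_norm_sq]
  push_cast
  ring

theorem arch_eq_ph {x : 𝓞 K} (hx : x ≠ 0) (hp : TPos K x) (k : (K →+* ℂ) → ℤ) :
    arch k (0 : (K →+* ℂ) → ℝ) (x : K) = ph (nt k) (x : K) := by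
  classical
  have hx' : (x : K) ≠ 0 := by exact_mod_cast hx
  have h1 : arch k (0 : (K →+* ℂ) → ℝ) (x : K) =
      ∏ φ : K →+* ℂ, (φ (x : K) / (‖φ (x : K)‖ : ℂ)) ^ k φ := by
    unfold arch
    refine Finset.prod_congr rfl fun φ _ => ?_
    simp
  rw [h1]
  unfold ph
  rw [prod_emb, prod_emb]
  refine Finset.prod_congr rfl fun w _ => ?_
  have hw0 : w.embedding (x : K) ≠ 0 := (map_ne_zero _).2 hx'
  by_cases hw : w.IsReal
  · rw [if_pos hw, if_pos hw]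
    have hr : cj w.embedding = w.embedding := by
      exact ComplexEmbedding.isReal_iff.1 (InfinitePlace.isReal_iff.1 hw)
    have h2 : nt k w.embedding = 0 := by
      unfold nt
      rw [hr]
      simp
    have hR : ComplexEmbedding.IsReal w.embedding := ComplexEmbedding.isReal_iff.2 hr
    have h3 := hp hR.embedding
    have h4 : ((hR.embedding (x : K) : ℝ) : ℂ) = w.embedding (x : K) :=
      ComplexEmbedding.IsReal.coe_embedding_apply hR (x : K)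
    have h5 : w.embedding (x : K) / (‖w.embedding (x : K)‖ : ℂ) = 1 := by
      rw [← h4, Complex.norm_real, Real.norm_of_nonneg h3.le]
      exact div_self (by exact_mod_cast h3.ne')
    rw [h5, h2, one_zpow, one_pow]
  · rw [if_neg hw, if_neg hw]
    have h2 : cj w.embedding (x : K) / (‖cj w.embedding (x : K)‖ : ℂ) =
        (w.embedding (x : K) / (‖w.embedding (x : K)‖ : ℂ))⁻¹ := by
      rw [cj_apply, Complex.norm_conj, ← conj_unit hw0, map_div₀, Complex.conj_ofReal]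
    rw [h2]
    have hu : w.embedding (x : K) / (‖w.embedding (x : K)‖ : ℂ) ≠ 0 :=
      div_ne_zero hw0 (by exact_mod_cast norm_ne_zero_iff.2 hw0)
    set u := w.embedding (x : K) / (‖w.embedding (x : K)‖ : ℂ)
    rw [inv_zpow, inv_pow, ← zpow_neg, ← zpow_add₀ hu, ← zpow_natCast, ← zpow_natCast, ← zpow_neg,
      ← zpow_add₀ hu]
    congr 1
    unfold nt
    rw [cj_cj]
    omega

/-- the values on the principal ideals -/
theorem ray_ph {𝔣 : Ideal (𝓞 K)} {k : (K →+* ℂ) → ℤ} {η : Ideal (𝓞 K) →*₀ ℂ}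
    (h : IsHecke 𝔣 k 0 η) {x : 𝓞 K} (hx : x ≠ 0) (hx1 : x - 1 ∈ 𝔣) (hp : TPos K x) :
    η (Ideal.span {x}) = ph (nt k) (x : K) := by
  rw [h.ray x hx hx1 hp, arch_eq_ph hx hp]

theorem norm_le {𝔣 : Ideal (𝓞 K)} {k : (K →+* ℂ) → ℤ} {t : (K →+* ℂ) → ℝ}
    {η : Ideal (𝓞 K) →*₀ ℂ} (h : IsHecke 𝔣 k t η) (𝔞 : Ideal (𝓞 K)) : ‖η 𝔞‖ ≤ 1 := by
  by_cases h0 : η 𝔞 = 0
  · rw [h0, norm_zero]
    exact zero_le_one
  · exact (h.unit 𝔞 h0).le

/-- **Hecke characters of nontrivial type**: the L-function is entire. -/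
theorem entire_nt {𝔣 : Ideal (𝓞 K)} {k : (K →+* ℂ) → ℤ} {η : Ideal (𝓞 K) →*₀ ℂ}
    (h : IsHecke 𝔣 k 0 η) (htop : 𝔣 ≠ ⊤) (hk : NT k) :
    ∃ F : ℂ → ℂ, Differentiable ℂ F ∧ ∀ s : ℂ, 1 < s.re → F s = LI η s := by
  obtain ⟨e, he, hc, hs⟩ := sig_gen h.ne_bot (fun x => η (Ideal.span {x}) * kp (nt k) (x : K))
    (by
      have h1 : ((1 : 𝓞 K) : K) = 1 := map_one (algebraMap (𝓞 K) K)
      rw [Ideal.span_singleton_one, ← Ideal.one_eq_top, map_one, h1, one_mul]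
      have := (kap_kp (nt k)).nat 1 one_pos
      simpa using this)
    (fun x y => by
      have h1 : ((x * y : 𝓞 K) : K) = (x : K) * (y : K) := map_mul (algebraMap (𝓞 K) K) x y
      rw [span_mul', h1, kp_mul]
      ring)
    (fun x hx hx1 hx2 => by
      rw [ray_ph h hx hx1 hx2, kp_conj_mul (nt k) (by exact_mod_cast hx)])
  have hmod : IsModK 𝔣 (kp (fty (nt k) e)) η := by
    refine ⟨kap_kp _, h.ne_bot, htop, fun 𝔞 => ?_, fun x hx hx1 => ?_⟩
    · by_cases h0 : 𝔞 = ⊥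
      · subst h0
        constructor
        · intro h2
          exact absurd (by rw [← Ideal.zero_eq_bot, map_zero]) h2
        · intro h2
          exfalso
          apply htop
          have := Ideal.isCoprime_iff_sup_eq.1 h2
          rwa [bot_sup_eq] at this
      · exact h.supp 𝔞 h0
    · have hxK : (x : K) ≠ 0 := by exact_mod_cast hx
      have h1 := hs x hx hx1
      have h2 : kp (fty (nt k) e) (x : K) = kp (nt k) (x : K) * (starRingEnd ℂ) (sg e (x : K)) := by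
        unfold kp
        rw [ph_fty hc hxK, map_mul]
      rw [h2, Pool.Agent.Y773.G.conj_sg, ← mul_assoc, h1]
      exact sg_sq e hxK
  have hn0 : fty (nt k) e ≠ 0 := by
    intro h0
    apply nt_ne hk
    funext φ
    have h1 : fty (nt k) e φ = 0 := by rw [h0]; rfl
    unfold Pool.Agent.N784.HC.fty at h1
    exact (Nat.add_eq_zero_iff.1 h1).1
  exact LI_entire ((nt_ctyp k).fty he hc) hn0 hmod

/-- **Hecke characters of trivial type.** -/
theorem cont_triv {𝔣 : Ideal (𝓞 K)} {k : (K →+* ℂ) → ℤ} {η : Ideal (𝓞 K) →*₀ ℂ}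
    (h : IsHecke 𝔣 k 0 η) (htop : 𝔣 ≠ ⊤) (hk : ¬ NT k) :
    ∃ f : ℂ → ℂ, MeromorphicOn f Set.univ ∧ (∀ s : ℂ, 1 < s.re → f s = LI η s) ∧
      (∀ s : ℂ, 0 < s.re → s ≠ 1 → AnalyticAt ℂ f s) ∧ (-1 ≤ meromorphicOrderAt f 1) ∧
      ((∃ 𝔞, η 𝔞 ≠ 0 ∧ η 𝔞 ≠ 1) → AnalyticAt ℂ f 1) := by
  classical
  obtain ⟨𝔤, e, ψ', hdvd, hne, hele, hecx, hsupp, hsig, hprim, heq⟩ :=
    Pool.Agent.Q264.AR.prim K 𝔣 η h.ne_bot h.supp (by
      intro x hx0 hx1 hxp
      rw [ray_ph h hx0 hx1 hxp, nt_eq_zero hk, Pool.Agent.N784.HC.ph_zero_type])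
  obtain ⟨hnorm, g, hg, hgL⟩ := Pool.Agent.Q84.AR.cont_prim hne hele hecx hsupp hsig hprim
  have hbot : η ⊥ = 0 := map_zero η
  have h1 : η = Pool.Agent.Y773.AB.res 𝔣 htop ψ' := by
    ext 𝔞
    by_cases hc : IsCoprime 𝔞 𝔣
    · rw [Pool.Agent.Y773.AB.res_cop htop _ hc, heq 𝔞 hc]
    · rw [Pool.Agent.Y773.AB.res_not htop _ hc]
      by_contra h2
      by_cases h3 : 𝔞 = ⊥
      · rw [h3] at h2
        exact h2 hbot
      · exact hc ((h.supp 𝔞 h3).1 h2)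
  have hL : ∀ s : ℂ, 1 < s.re → LI η s = LI ψ' s * Pool.Agent.Y773.AB.Ef 𝔣 ψ' s := fun s hs => by
    rw [h1]
    exact Pool.Agent.Y773.AB.LI_res h.ne_bot htop hnorm hs
  refine Pool.Agent.Q84.AR.concl (g := fun s => g s * Pool.Agent.Y773.AB.Ef 𝔣 ψ' s)
    (hg.mul (Pool.Agent.Y773.AB.Ef_diff h.ne_bot ψ')) ?_
  rcases hgL with h2 | ⟨ht, h2⟩
  · left
    intro s hs
    rw [hL s hs, h2 s hs]
  · right
    refine ⟨?_, fun s hs => by rw [hL s hs, h2 s hs, div_mul_eq_mul_div]⟩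
    rintro ⟨𝔞, h3, h4⟩
    have h5 : 𝔞 ≠ ⊥ := by
      rintro rfl
      exact h3 hbot
    apply h4
    rw [← heq 𝔞 ((h.supp 𝔞 h5).1 h3)]
    exact ht 𝔞 h5

end

end Pool.Agent.H511.Cm
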