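import Pool.Agent.H511.Cm.Prm
import Pool.Agent.H511.Ex.Tw2

/-!
# The twists of a Hecke character of any type are a family with the density theorems
-/

set_option autoImplicit false
set_option linter.unusedSectionVars false

namespace Pool.Agent.H511.Cm

open Finset Filter Topology Complex MeasureTheory NumberField
open ArithmeticFunction (vonMangoldt)
open Pool.Agent.Y767.CA (GGc FEc)
open Pool.Agent.Y773 (LI cc absNorm_span_nat mul_span_ne_top TPos tw)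
open Pool.Agent.R399.TW
open Pool.Agent.N784.HC (ph norm_ph CTyp fty kp FEm GGm TypK NW)
open scoped ComplexConjugate

theorem fec_of_fem {ι : Type} [Fintype ι] {R : ℝ} {μ : ι → ℝ} {F : ℂ → ℂ}
    (h : FEm R μ F) (hne : Nonempty ι) : FEc R (fun i => (μ i : ℂ)) F := by
  have hG : ∀ s : ℂ, GGc R (fun i => (μ i : ℂ)) s = GGm R μ s := fun s => rfl
  have him : ∀ i, ((μ i : ℂ)).im = 0 := fun i => Complex.ofReal_im _
  refine ⟨h.diff, ?_, ?_⟩
  · obtain ⟨w, hw, hfe⟩ := h.fe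
    refine ⟨w, hw, fun s hs => ?_⟩
    rw [hG, hG]
    refine hfe s ?_
    obtain ⟨i⟩ := hne
    have := hs i
    rw [him, add_zero] at this
    exact this
  · intro a b
    obtain ⟨C, hC⟩ := h.vert a b
    refine ⟨C, fun s h1 h2 h3 => ?_⟩
    rw [hG]
    refine hC s h1 h2 ?_
    obtain ⟨i⟩ := hne
    have := h3 i
    rw [him, add_zero] at this
    exact this

section
variable {K : Type} [Field K] [NumberField K] {n : (K →+* ℂ) → ℕ}

theorem tpos_sq {x : 𝓞 K} (hx : x ≠ 0) : TPos K (x * x) := by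
  intro σ
  have h1 : σ ((x : 𝓞 K) : K) ≠ 0 := (map_ne_zero _).2 (by exact_mod_cast hx)
  push_cast
  rw [map_mul]
  exact mul_self_pos.2 h1

/-- primitive Hecke characters are unitary -/
theorem norm_leH {𝔣 : Ideal (𝓞 K)} {ψ : Ideal (𝓞 K) →*₀ ℂ}
    (hψ : Pool.Agent.N784.HC.IsHecke K 𝔣 n ψ) (𝔞 : Ideal (𝓞 K)) : ‖ψ 𝔞‖ ≤ 1 := by
  by_cases h0 : 𝔞 = ⊥
  · have h4 : ψ 𝔞 = 0 := by
      rw [h0]
      exact map_zero ψ
    rw [h4, norm_zero]
    exact zero_le_one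
  by_cases hc : IsCoprime 𝔞 𝔣
  · obtain ⟨k, x, hk, hx0, hx1, hx⟩ := Pool.Agent.Y773.exists_pow hψ.ne_bot h0 hc
    have h2 : x * x - 1 ∈ 𝔣 := by
      have : x * x - 1 = x * (x - 1) + (x - 1) := by ring
      rw [this]
      exact 𝔣.add_mem (𝔣.mul_mem_left _ hx1) hx1
    have h1 := hψ.ray (x * x) (mul_ne_zero hx0 hx0) h2 (tpos_sq hx0)
    rw [← Ideal.span_singleton_mul_span_singleton, ← hx, ← pow_add, map_pow] at h1
    have h3 := congrArg norm h1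
    rw [norm_pow, norm_ph n (by exact_mod_cast mul_ne_zero hx0 hx0)] at h3
    exact ((pow_eq_one_iff_of_nonneg (norm_nonneg _) (by omega)).mp h3).le
  · have h4 : ψ 𝔞 = 0 := by
      by_contra h1
      exact hc ((hψ.supp 𝔞 h0).1 h1)
    rw [h4, norm_zero]
    exact zero_le_one

theorem ex_le {n : (K →+* ℂ) → ℕ} {B : ℕ} (hB : ∀ φ, n φ ≤ B) (φ : K →+* ℂ) :
    Pool.Agent.N784.HC.ex n φ ≤ 2 * B + 1 := by
  classical
  have h1 : ∀ w : InfinitePlace K, (NW n w : ℝ) ≤ 2 * B := by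
    intro w
    have h2 : NW n w ≤ 2 * B := by
      unfold Pool.Agent.N784.HC.NW
      split_ifs
      · have := hB w.embedding
        omega
      · have h3 := hB w.embedding
        have h4 := hB (Pool.Agent.Y773.G.cj w.embedding)
        omega
    exact_mod_cast h2
  have h2 := h1 (InfinitePlace.mk φ)
  have h0 : (0 : ℝ) ≤ NW n (InfinitePlace.mk φ) := Nat.cast_nonneg _
  unfold Pool.Agent.N784.HC.ex
  split_ifs <;> linarith

/-- the L-functions of the twists, with the functional equation -/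
theorem tw_fe (hn : CTyp n) (hn0 : n ≠ 0) {𝔣 : Ideal (𝓞 K)} {ψ : Ideal (𝓞 K) →*₀ ℂ}
    (hψ : Pool.Agent.N784.HC.IsHecke K 𝔣 n ψ) {q : ℕ} {χ : DirichletCharacter ℂ q} (hq : 2 ≤ q)
    (hqN : Nat.Coprime q (Ideal.absNorm 𝔣 * (discr K).natAbs)) (hχ : χ.IsPrimitive) :
    ∃ (μ : (K →+* ℂ) → ℝ) (F : ℂ → ℂ), (∀ φ, 0 ≤ μ φ) ∧
      (∀ φ, μ φ ≤ 2 * ((∑ φ, n φ) + 1 : ℕ) + 1) ∧
      FEm ((Ideal.absNorm (𝔣 * Ideal.span {(q : 𝓞 K)}) *
        Ideal.absNorm (differentIdeal ℤ (𝓞 K)) : ℕ) : ℝ) μ F ∧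
      ∀ s : ℂ, 1 < s.re → F s = LI (tw ψ χ) s := by
  classical
  have h1 := tw_primH hψ hq hqN hχ
  obtain ⟨e, he, hc, hm⟩ := h1.modK (mul_span_ne_top hq)
  have hp := h1.primK (mul_span_ne_top hq) hc
  have hn' : fty n e ≠ 0 := by
    intro h0
    apply hn0
    funext φ
    have h2 : fty n e φ = 0 := by rw [h0]; rfl
    unfold Pool.Agent.N784.HC.fty at h2
    exact (Nat.add_eq_zero_iff.1 h2).1
  obtain ⟨F, hF, hFL⟩ := Pool.Agent.N784.HC.fe_prim (hn.fty he hc) hn' hp hm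
  refine ⟨_, F, fun φ => Pool.Agent.N784.HC.ex_nonneg _ φ, fun φ => ?_, hF, hFL⟩
  refine ex_le (fun φ => ?_) φ
  unfold Pool.Agent.N784.HC.fty
  have h2 : n φ ≤ ∑ φ, n φ := Finset.single_le_sum (fun _ _ => Nat.zero_le _) (Finset.mem_univ φ)
  have h3 := he (InfinitePlace.mk φ)
  omega

/-- **the family of the twists**, nontrivial type -/
theorem fam_hk (hn : CTyp n) (hn0 : n ≠ 0) {𝔣 : Ideal (𝓞 K)} {ψ : Ideal (𝓞 K) →*₀ ℂ}
    (hψ : Pool.Agent.N784.HC.IsHecke K 𝔣 n ψ) :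
    ∃ L : (q : ℕ) → DirichletCharacter ℂ q → ℂ → ℂ,
      (∀ (q : ℕ) (χ : DirichletCharacter ℂ q), 2 ≤ q →
        Nat.Coprime q (Ideal.absNorm 𝔣 * (discr K).natAbs) → χ.IsPrimitive →
        Differentiable ℂ (L q χ) ∧ ∀ s : ℂ, 1 < s.re → L q χ s = LI (tw ψ χ) s) ∧
      Fm (Module.finrank ℚ K) (Ideal.absNorm 𝔣 * (discr K).natAbs) L := by
  classical
  have hall : ∀ (q : ℕ) (χ : DirichletCharacter ℂ q), ∃ F : ℂ → ℂ, (2 ≤ q →
      Nat.Coprime q (Ideal.absNorm 𝔣 * (discr K).natAbs) → χ.IsPrimitive →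
      (∃ μ : (K →+* ℂ) → ℝ, (∀ φ, 0 ≤ μ φ) ∧ (∀ φ, μ φ ≤ 2 * ((∑ φ, n φ) + 1 : ℕ) + 1) ∧
        FEm ((Ideal.absNorm (𝔣 * Ideal.span {(q : 𝓞 K)}) *
          Ideal.absNorm (differentIdeal ℤ (𝓞 K)) : ℕ) : ℝ) μ F) ∧
      ∀ s : ℂ, 1 < s.re → F s = LI (tw ψ χ) s) := by
    intro q χ
    by_cases hc : 2 ≤ q ∧ Nat.Coprime q (Ideal.absNorm 𝔣 * (discr K).natAbs) ∧ χ.IsPrimitive
    · obtain ⟨hq, hqN, hχ⟩ := hc
      obtain ⟨μ, F, h1, h2, h3, h4⟩ := tw_fe hn hn0 hψ hq hqN hχ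
      exact ⟨F, fun _ _ _ => ⟨⟨μ, h1, h2, h3⟩, h4⟩⟩
    · exact ⟨0, fun h1 h2 h3 => absurd ⟨h1, h2, h3⟩ hc⟩
  choose L hL using hall
  refine ⟨L, fun q χ hq hqN hχ => ?_, ?_⟩
  · obtain ⟨⟨μ, -, -, h3⟩, h4⟩ := hL q χ hq hqN hχ
    exact ⟨h3.diff, h4⟩
  obtain ⟨A₀, hA₀, hD⟩ := Pool.Agent.Y772.DK.t_dirK K
  have hψn := norm_leH hψ
  obtain ⟨-, -, -, -, -, -, b1, -, -, -, d11⟩ := hD ψ hψn
  have hLin : Lin (cc ψ) := by
    intro σ hσ
    refine Summable.of_nonneg_of_le (fun n => ?_) (fun n => ?_)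
      ((Pool.Agent.Y767.CA.summable_vm hσ).mul_left (Module.finrank ℚ K : ℝ))
    · have := vm_nn n
      positivity
    · have h1 := vm_nn n
      have h2 := b1 n
      calc vonMangoldt n * ‖cc ψ n‖ * (n : ℝ) ^ (-σ)
          ≤ vonMangoldt n * (Module.finrank ℚ K : ℝ) * (n : ℝ) ^ (-σ) := by gcongr
        _ = _ := by ring
  have hne : Nonempty (K →+* ℂ) := inferInstance
  set B : ℝ := 2 * (((∑ φ, n φ) + 1 : ℕ) : ℝ) + 1 with hBdef
  have hB0 : 0 ≤ B := by positivity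
  refine ⟨cc ψ, ((Ideal.absNorm 𝔣 * Ideal.absNorm (differentIdeal ℤ (𝓞 K)) : ℕ) : ℝ),
    3 * (1 + (B + 3)), _, Nat.cast_nonneg _, by positivity, hLin, sqb_of_bdd b1, ?_⟩
  intro q χ hq hqN hχ
  have htw := tw_primH hψ hq hqN hχ
  obtain ⟨⟨μ, hμ0, hμB, hG⟩, hs⟩ := hL q χ hq hqN hχ
  have hd := hG.diff
  have hψ1 := norm_leH htw
  obtain ⟨-, d2, d3, d4, -, -, -, -, -, -, -⟩ := hD (tw ψ χ) hψ1
  have hFE := fec_of_fem hG hne
  -- the conductor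
  have hRe : ((Ideal.absNorm (𝔣 * Ideal.span {(q : 𝓞 K)}) *
      Ideal.absNorm (differentIdeal ℤ (𝓞 K)) : ℕ) : ℝ) =
      ((Ideal.absNorm 𝔣 * Ideal.absNorm (differentIdeal ℤ (𝓞 K)) : ℕ) : ℝ) *
        (q : ℝ) ^ (Module.finrank ℚ K) := by
    rw [map_mul, absNorm_span_nat]
    push_cast
    ring
  have hR : (0 : ℝ) < ((Ideal.absNorm 𝔣 * Ideal.absNorm (differentIdeal ℤ (𝓞 K)) : ℕ) : ℝ) *
        (q : ℝ) ^ (Module.finrank ℚ K) := by
    have h1 : 0 < Ideal.absNorm 𝔣 := Nat.pos_of_ne_zero fun h =>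
      hψ.ne_bot (Ideal.absNorm_eq_zero_iff.1 h)
    have h2 : 0 < Ideal.absNorm (differentIdeal ℤ (𝓞 K)) := Nat.pos_of_ne_zero fun h =>
      differentIdeal_ne_bot (Ideal.absNorm_eq_zero_iff.1 h)
    have h3 : (0 : ℝ) < ((Ideal.absNorm 𝔣 * Ideal.absNorm (differentIdeal ℤ (𝓞 K)) : ℕ) : ℝ) := by
      exact_mod_cast Nat.mul_pos h1 h2
    have h4 : (0 : ℝ) < q := by exact_mod_cast (show 0 < q by omega)
    positivity
  rw [hRe] at hFE
  have hμre : ∀ i, ((μ i : ℝ) : ℂ).re = μ i := fun i => Complex.ofReal_re _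
  have hmem : Mem (cc ψ) (((Ideal.absNorm 𝔣 * Ideal.absNorm (differentIdeal ℤ (𝓞 K)) : ℕ) : ℝ) *
      (q : ℝ) ^ (Module.finrank ℚ K)) (3 * (1 + (B + 3))) (Fintype.card (K →+* ℂ)) (chs χ)
      (L q χ) := by
    refine mem_of_fec hR (μ := fun i => ((μ i : ℝ) : ℂ)) (fun i => ?_)
      (fun i => ?_) (by linarith) hFE hLin (chs_mul χ) (chs_one χ) (chs_le χ) ?_
    · rw [hμre]
      have := hμ0 i
      linarith
    · rw [Complex.norm_real, Real.norm_of_nonneg (hμ0 i)]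
      have := hμB i
      linarith
    · refine ser_of_ld hLin (chs_one χ) (chs_mul χ) (chs_le χ) (fun s _ => hd s)
        (fun s h => by rw [hs s h]; exact d3 s h) (fun s h => ?_) ?_
      · have h5 : deriv (L q χ) s = deriv (LI (tw ψ χ)) s := by
          refine Filter.EventuallyEq.deriv_eq ?_
          have h6 : {z : ℂ | 1 < z.re} ∈ 𝓝 s :=
            (isOpen_lt continuous_const Complex.continuous_re).mem_nhds h
          filter_upwards [h6] with z hz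
          exact hs z hz
        rw [h5, hs s h, d4 s h]
        congr 1
        refine tsum_congr fun n => ?_
        rw [d11 q χ n]
        rfl
      · have h7 := Pool.Agent.Y772.DK.LA_tendsto (K := K)
          (a := fun 𝔞 => (tw ψ χ) 𝔞) (map_zero _) hψ1
        simp only [map_one] at h7
        refine h7.congr' ?_
        filter_upwards [eventually_gt_atTop 1] with x hx
        rw [hs _ (by simpa using hx)]
        rfl
  rw [Pool.Agent.Y773.G.card_emb] at hmem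
  refine ⟨L q χ, hmem, fun s _ h => h, fun s h0 h1 h2 => ?_⟩
  exact refl_zero hR (fun i => by rw [hμre]; exact hμ0 i) hFE h0 h1 h2

/-- **the family of the twists**, any type -/
theorem fam_any (hn : CTyp n) {𝔣 : Ideal (𝓞 K)} {ψ : Ideal (𝓞 K) →*₀ ℂ}
    (hψ : Pool.Agent.N784.HC.IsHecke K 𝔣 n ψ) :
    ∃ L : (q : ℕ) → DirichletCharacter ℂ q → ℂ → ℂ,
      (∀ (q : ℕ) (χ : DirichletCharacter ℂ q), 2 ≤ q →
        Nat.Coprime q (Ideal.absNorm 𝔣 * (discr K).natAbs) → χ.IsPrimitive →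
        Differentiable ℂ (L q χ) ∧ ∀ s : ℂ, 1 < s.re → L q χ s = LI (tw ψ χ) s) ∧
      Fm (Module.finrank ℚ K) (Ideal.absNorm 𝔣 * (discr K).natAbs) L := by
  by_cases hn0 : n = 0
  · subst hn0
    have hp : Pool.Agent.Y773.G.IsPrimChar K 𝔣 ψ := by
      refine ⟨hψ.ne_bot, hψ.supp, fun x h1 h2 h3 => ?_, fun 𝔤 h1 h2 => ?_⟩
      · rw [hψ.ray x h1 h2 h3, Pool.Agent.N784.HC.ph_zero_type]
      · obtain ⟨x, a, b, c, d⟩ := hψ.prim 𝔤 h1 h2
        rw [Pool.Agent.N784.HC.ph_zero_type] at d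
        exact ⟨x, a, b, c, d⟩
    obtain ⟨L, hL⟩ := Pool.Agent.N784.TD.exists_L hp
    exact ⟨L, hL, Pool.Agent.N784.TD.fam_ray hp hL⟩
  · exact fam_hk hn hn0 hψ

end

end Pool.Agent.H511.Cm
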