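import Pool.Agent.H511.Cm.Tww

/-!
# Products of Euler products over several fields
-/

set_option autoImplicit false
set_option linter.unusedSectionVars false

namespace Pool.Agent.H511.Cm

open NumberField IsDedekindDomain Filter Topology Pool.Agent.Q5.BR

/-- the primes above `v` in an Euler product -/
theorem hasProd_above {K F : Type} [Field K] [NumberField K] [Field F] [NumberField F] [Algebra K F]
    {ℓ : HeightOneSpectrum (𝓞 F) → ℂ} {a : ℂ} (hℓ : HasProd ℓ a) :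
    HasProd (fun v : HeightOneSpectrum (𝓞 K) => ∏ w ∈ above F v, ℓ w) a := by
  classical
  let e := Equiv.sigmaFiberEquiv (fun w : HeightOneSpectrum (𝓞 F) => w.under (𝓞 K))
  have h1 : HasProd (fun x : Σ v, {w : HeightOneSpectrum (𝓞 F) // w.under (𝓞 K) = v} => ℓ x.2.1)
      a := (e.hasProd_iff (f := ℓ)).2 hℓ
  refine h1.sigma fun v => ?_
  have hf : Finite {w : HeightOneSpectrum (𝓞 F) // w.under (𝓞 K) = v} :=
    Pool.Agent.Q5.BR.above_finite v
  let _ : Fintype {w : HeightOneSpectrum (𝓞 F) // w.under (𝓞 K) = v} := Fintype.ofFinite _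
  have h2 : ∏ w ∈ above F v, ℓ w =
      ∏ w : {w : HeightOneSpectrum (𝓞 F) // w.under (𝓞 K) = v}, ℓ w.1 := by
    refine Finset.prod_subtype _ (fun w => ?_) _
    exact mem_above
  rw [h2]
  exact hasProd_fintype _

theorem glue {ι : Type} [Fintype ι] {F : Type} [Field F] [NumberField F] (E : ι → Type)
    [∀ j, Field (E j)] [∀ j, NumberField (E j)] [∀ j, Algebra F (E j)]
    (U : (j : ι) → HeightOneSpectrum (𝓞 (E j)) → ℂ → ℂ)
    (hU : ∀ j w, Differentiable ℂ (U j w)) (hU0 : ∀ j w (s : ℂ), 0 < s.re → U j w s ≠ 0)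
    (g : ι → ℂ → ℂ) (hg : ∀ j, MeromorphicOn (g j) Set.univ)
    (hgp : ∀ j (s : ℂ), 1 < s.re → HasProd (fun w => (U j w s)⁻¹) (g j s)) (c : ℂ)
    (S : Finset (HeightOneSpectrum (𝓞 F))) (b : HeightOneSpectrum (𝓞 F) → ℂ → ℂ)
    (hb : ∀ v ∈ S, Differentiable ℂ (b v)) (hb0 : ∀ v ∈ S, ∀ s : ℂ, c.re < s.re → b v s ≠ 0)
    (hbS : ∀ v ∉ S, ∀ s : ℂ, b v s = ∏ j, ∏ w ∈ above (E j) v, U j w (s - c)) :
    ∃ Λ : ℂ → ℂ, MeromorphicOn Λ Set.univ ∧
      (∀ s : ℂ, c.re + 1 < s.re → HasProd (fun v => (b v s)⁻¹) (Λ s)) ∧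
      ∀ s : ℂ, c.re < s.re → (∀ j, AnalyticAt ℂ (g j) (s - c) ∧ g j (s - c) ≠ 0) →
        AnalyticAt ℂ Λ s ∧ Λ s ≠ 0 := by
  classical
  set X : ℂ → ℂ := fun s => ∏ v ∈ S, ∏ j, ∏ w ∈ above (E j) v, U j w (s - c) with hX
  set Y : ℂ → ℂ := fun s => ∏ v ∈ S, b v s with hY
  have hsub : Differentiable ℂ (fun s : ℂ => s - c) := by fun_prop
  have hXd : Differentiable ℂ X := by
    refine Differentiable.fun_finsetProd fun v _ => ?_
    refine Differentiable.fun_finsetProd fun j _ => ?_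
    refine Differentiable.fun_finsetProd fun w _ => ?_
    exact (hU j w).comp hsub
  have hYd : Differentiable ℂ Y := Differentiable.fun_finsetProd fun v hv => hb v hv
  have hX0 : ∀ s : ℂ, c.re < s.re → X s ≠ 0 := by
    intro s hs
    refine Finset.prod_ne_zero_iff.2 fun v _ => Finset.prod_ne_zero_iff.2 fun j _ =>
      Finset.prod_ne_zero_iff.2 fun w _ => hU0 j w _ ?_
    rw [Complex.sub_re]
    linarith
  have hY0 : ∀ s : ℂ, c.re < s.re → Y s ≠ 0 := fun s hs =>
    Finset.prod_ne_zero_iff.2 fun v hv => hb0 v hv s hs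
  refine ⟨fun s => (∏ j, g j (s - c)) * (X s * (Y s)⁻¹), ?_, ?_, ?_⟩
  · intro s _
    refine MeromorphicAt.mul ?_ ((hXd.analyticAt s).meromorphicAt.mul
      (hYd.analyticAt s).meromorphicAt.inv)
    refine MeromorphicAt.fun_prod fun j _ => ?_
    exact MeromorphicAt.comp_analyticAt (f := g j) (g := fun s => s - c)
      (hg j (s - c) (Set.mem_univ _)) (hsub.analyticAt s)
  · intro s hs
    have hs' : 1 < (s - c).re := by rw [Complex.sub_re]; linarith
    have e1 : HasProd (fun v : HeightOneSpectrum (𝓞 F) => ∏ j, ∏ w ∈ above (E j) v,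
        (U j w (s - c))⁻¹) (∏ j, g j (s - c)) :=
      hasProd_prod fun j _ => hasProd_above (hgp j (s - c) hs')
    have e2 : HasProd (fun v : HeightOneSpectrum (𝓞 F) =>
        if v ∈ S then (∏ j, ∏ w ∈ above (E j) v, U j w (s - c)) * (b v s)⁻¹ else 1)
        (∏ v ∈ S, if v ∈ S then (∏ j, ∏ w ∈ above (E j) v, U j w (s - c)) * (b v s)⁻¹ else 1) :=
      hasProd_prod_of_ne_finset_one fun v hv => if_neg hv
    have e3 : (∏ v ∈ S, if v ∈ S then (∏ j, ∏ w ∈ above (E j) v, U j w (s - c)) * (b v s)⁻¹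
        else 1) = X s * (Y s)⁻¹ := by
      rw [hX, hY]
      simp only
      rw [← Finset.prod_inv_distrib, ← Finset.prod_mul_distrib]
      exact Finset.prod_congr rfl fun v hv => if_pos hv
    rw [e3] at e2
    refine (e1.mul e2).congr_fun fun v => ?_
    have e4 : ∏ j, ∏ w ∈ above (E j) v, (U j w (s - c))⁻¹ =
        (∏ j, ∏ w ∈ above (E j) v, U j w (s - c))⁻¹ := by
      rw [← Finset.prod_inv_distrib]
      exact Finset.prod_congr rfl fun j _ => Finset.prod_inv_distrib _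
    have e5 : ∏ j, ∏ w ∈ above (E j) v, U j w (s - c) ≠ 0 :=
      Finset.prod_ne_zero_iff.2 fun j _ => Finset.prod_ne_zero_iff.2 fun w _ =>
        hU0 j w _ (by linarith)
    by_cases hv : v ∈ S
    · rw [if_pos hv, e4, inv_mul_cancel_left₀ e5]
    · rw [if_neg hv, mul_one, e4, hbS v hv]
  · intro s hs h
    refine ⟨?_, ?_⟩
    · refine AnalyticAt.mul ?_ ((hXd.analyticAt s).mul ((hYd.analyticAt s).inv (hY0 s hs)))
      refine Finset.analyticAt_fun_prod _ fun j _ => ?_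
      exact AnalyticAt.fun_comp (g := g j) (f := fun s => s - c) (h j).1 (hsub.analyticAt s)
    · exact mul_ne_zero (Finset.prod_ne_zero_iff.2 fun j _ => (h j).2)
        (mul_ne_zero (hX0 s hs) (inv_ne_zero (hY0 s hs)))

end Pool.Agent.H511.Cm
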