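import Pool.Agent.H511.Cm.One

/-!
# Holomorphy of the L-functions of Hecke characters times Galois representations
-/

set_option autoImplicit false
set_option linter.unusedSectionVars false

namespace Pool.Agent.H511.Cm

open NumberField IsDedekindDomain Filter Topology Pool.Agent.H921R2.TatePole Pool.Agent.W353.NF
  Pool.Agent.Q5.BR Pool.Agent.H541R3.ART Pool.Agent.Q92.AR Pool.Agent.H302R2 Pool.Agent.H511.Ex
  Pool.Agent.W446.AS Pool.Agent.Y786.FR Equiv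
open Pool.Agent.Q92.RT (induced induced_conj induced_pair class_expand)
open Pool.Agent.Y773 (LI)
open Pool.Agent.N172.HS (nrmc IsHecke)

theorem one_re_pos : (0 : ℝ) < (1 : ℂ).re := by rw [Complex.one_re]; exact one_pos

theorem order_fixer_top {K L : Type} [Field K] [NumberField K] [Field L] [NumberField L]
    [Algebra K L] [IsGalois K L] : fixer K K L = ⊤ := by
  rw [eq_top_iff]
  intro g _
  exact fun x => g.commutes x

theorem induced_top {G : Type} [Group G] [Finite G] (l : (⊤ : Subgroup G) →* ℂˣ) :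
    induced (⊤ : Subgroup G) l = fun g => ((l ⟨g, Subgroup.mem_top g⟩ : ℂˣ) : ℂ) := by
  classical
  have fG : Fintype G := Fintype.ofFinite _
  funext g
  unfold Pool.Agent.Q92.RT.induced
  rw [finsum_eq_sum_of_fintype]
  have h3 : ∀ x : G, (if h : x⁻¹ * g * x ∈ (⊤ : Subgroup G) then
      ((l ⟨x⁻¹ * g * x, h⟩ : ℂˣ) : ℂ) else 0) = ((l ⟨g, Subgroup.mem_top g⟩ : ℂˣ) : ℂ) := by
    intro x
    rw [dif_pos (Subgroup.mem_top _)]
    have h4 : (⟨x⁻¹ * g * x, Subgroup.mem_top _⟩ : (⊤ : Subgroup G)) =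
        ⟨x, Subgroup.mem_top x⟩⁻¹ * ⟨g, Subgroup.mem_top g⟩ * ⟨x, Subgroup.mem_top x⟩ := rfl
    rw [h4, map_mul, map_mul, map_inv, mul_comm, mul_inv_cancel_left]
  rw [Finset.sum_congr rfl fun x _ => h3 x]
  have hc : (Nat.card G : ℂ) ≠ 0 := by exact_mod_cast Nat.card_pos.ne'
  simp only [Finset.sum_const, Finset.card_univ, nsmul_eq_mul, Subgroup.card_top]
  rw [Nat.card_eq_fintype_card] at hc ⊢
  rw [← mul_assoc, inv_mul_cancel₀ hc, one_mul]

theorem coprime_of_not_le {F : Type} [Field F] [NumberField F] {𝔪 : Ideal (𝓞 F)}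
    {w : HeightOneSpectrum (𝓞 F)} (h : ¬ 𝔪 ≤ w.asIdeal) : IsCoprime w.asIdeal 𝔪 := by
  rw [Ideal.isCoprime_iff_sup_eq]
  by_contra hne
  have h1 := w.isMaximal.eq_of_le hne le_sup_left
  exact h (by rw [h1]; exact le_sup_right)

section
variable {K M : Type} [Field K] [NumberField K] [Field M] [NumberField M] [Algebra K M]
  [IsGalois K M]

theorem lin1_triv {𝔣 : Ideal (𝓞 K)} {k : (K →+* ℂ) → ℤ} {ψ : Ideal (𝓞 K) →*₀ ℂ}
    (h : IsHecke 𝔣 k 0 ψ) (hk : ¬ NT k) : Lin1 M (fun v => ψ v.asIdeal) := by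
  intro H lam0
  obtain ⟨g0, hg0, -, -⟩ := linC_triv (M := M) h hk H lam0
  have hfix := fixer_fixedField (K := K) (M := M) H
  have hgal : IsGalois (IntermediateField.fixedField H) M := inferInstance
  let lam : fixer K (IntermediateField.fixedField H) M →* ℂˣ :=
    lam0.comp (Subgroup.inclusion (le_of_eq hfix))
  have h2 : induced (fixer K (IntermediateField.fixedField H) M) lam = induced H lam0 :=
    induced_congr hfix fun x hx hx' => rfl
  rw [← h2] at hg0 ⊢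
  obtain ⟨𝔪, η, htop, h3, hc, -⟩ := lin_hecke h lam
  obtain ⟨F, hF1, hF2, hF3, hF4, hF5, -⟩ := ord_one h3 htop (fun h4 => hk ((nt_comp _).1 h4))
  have h4 := hc.order (cont_spec ⟨g0, hg0⟩) (G := F) ⟨hF1, hF2⟩ one_re_pos
  rw [h4]
  exact ⟨hF4, hF5⟩

end

section
variable {k F L : Type} [Field k] [NumberField k] [Field F] [NumberField F] [Field L] [NumberField L]
  [Algebra k F] [Algebra k L] [Algebra F L] [IsScalarTower k F L] [IsGalois k L] [IsGalois F L]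

theorem Lin1.up {ω : HeightOneSpectrum (𝓞 k) → ℂ} {S : Set ℂ} (hω : ∀ v, ‖ω v‖ ≤ 1)
    (hf : LinC L ω S) (hS : ∀ s ∈ S, 0 < s.re) (h1 : Lin1 L ω) :
    Lin1 (K := F) L (upW k ω) := by
  intro H ψ
  obtain ⟨X', ψ', e, hc, -, -⟩ := cmp_sub (K := k) hω H ψ
  obtain ⟨g, hg, -⟩ := hf.up (F := F) hω hS H ψ
  obtain ⟨g', hg', -⟩ := hf X' ψ'
  have h2 := hc.order (cont_spec ⟨g, hg⟩) (cont_spec ⟨g', hg'⟩) one_re_pos
  rw [h2]
  exact h1 X' ψ'

/-- linear characters of the whole group -/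
theorem lin_star {𝔣 : Ideal (𝓞 k)} {n : (k →+* ℂ) → ℤ} {ψ : Ideal (𝓞 k) →*₀ ℂ}
    (h : IsHecke 𝔣 n 0 ψ) (hk : ¬ NT n) (l : (L ≃ₐ[F] L) →* ℂˣ) :
    0 ≤ meromorphicOrderAt (cont (twL L (upW k fun v => ψ v.asIdeal)
        (fun g => ((l g : ℂˣ) : ℂ)))) 1 ∨
      ∃ T : Finset (HeightOneSpectrum (𝓞 F)), ∀ w ∉ T,
        ((l (frob L w) : ℂˣ) : ℂ) * ψ (Ideal.relNorm (𝓞 k) w.asIdeal) = 1 := by
  have hω : ∀ v : HeightOneSpectrum (𝓞 k), ‖ψ v.asIdeal‖ ≤ 1 := fun v => norm_le h _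
  obtain ⟨𝔪, η, htop, h3, hc, hval⟩ := lin_hecke (F := F) (M := L) h (chF k l)
  obtain ⟨f, hf1, hf2, hf3, hf4, hf5, hf6⟩ := ord_one h3 htop (fun h4 => hk ((nt_comp _).1 h4))
  by_cases hη : ∃ 𝔞, η 𝔞 ≠ 0 ∧ η 𝔞 ≠ 1
  · left
    have c1 := cmp_lin (K := k) (F := F) (F' := F) (M := L) hω l
    have e1 : induced (fixer F F L) (chF F l) = fun g => ((l g : ℂˣ) : ℂ) := by
      have e2 : induced (fixer F F L) (chF F l) = induced (⊤ : Subgroup (L ≃ₐ[F] L))
          ((chF F l).comp (Subgroup.inclusion (le_of_eq order_fixer_top.symm))) :=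
        induced_congr order_fixer_top fun x hx hx' => rfl
      rw [e2, induced_top]
      funext g
      congr 1
      exact chF_apply l g _
    rw [e1] at c1
    have hlin := (linC_triv (M := L) h hk).up (F := F) hω (fun s hs => hs.1)
    obtain ⟨g, hg, -⟩ := hlin (fixer F F L) (chF F l)
    rw [e1] at hg
    have h4 := (c1.trans hc).order (cont_spec ⟨g, hg⟩) (G := f) ⟨hf1, hf2⟩ one_re_pos
    rw [h4, hf6 hη]
  · right
    push Not at hη
    refine ⟨(above_finite h3.ne_bot).toFinset, fun w hw => ?_⟩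
    have hw' : ¬ 𝔪 ≤ w.asIdeal := fun h5 => hw ((Set.Finite.mem_toFinset _).2 h5)
    have h5 := hη w.asIdeal ((h3.supp _ w.ne_bot).2 (coprime_of_not_le hw'))
    rw [hval w hw', ← nrmc_prime] at h5
    have h6 : chF k l (resF k F L (frob L w)) = l (frob L w) := chF_apply l _ _
    rw [h6] at h5
    exact h5

end

section
variable {K M : Type} [Field K] [NumberField K] [Field M] [NumberField M] [Algebra K M]
  [IsGalois K M] {ω : HeightOneSpectrum (𝓞 K) → ℂ} {S : Set ℂ}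

theorem TL_order' (hω : ∀ v, ‖ω v‖ ≤ 1) (hf : LinC M ω S) {χ : (M ≃ₐ[K] M) → ℂ}
    (hχ : χ ∈ Irr (M ≃ₐ[K] M)) (s₀ : ℂ) :
    meromorphicOrderAt (TL M ω χ) s₀ = meromorphicOrderAt (cont (twL M ω χ)) s₀ := by
  have hc := cont_spec (lin_continues hω hf hχ)
  unfold TL
  exact meromorphicOrderAt_toMeromorphicNFOn hc.1 (Set.mem_univ s₀)

theorem TL_eq' (hω : ∀ v, ‖ω v‖ ≤ 1) (hf : LinC M ω S) {χ : (M ≃ₐ[K] M) → ℂ}
    (hχ : χ ∈ Irr (M ≃ₐ[K] M)) {s : ℂ} (hs : 1 < s.re) :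
    TL M ω χ s = twL M ω χ s := by
  have hc := cont_spec (lin_continues hω hf hχ)
  have hopen : IsOpen {s : ℂ | 1 < s.re} := isOpen_lt continuous_const Complex.continuous_re
  have hev : ∀ᶠ z in 𝓝 s, z ∈ {s : ℂ | 1 < s.re} := hopen.mem_nhds hs
  have h1 : cont (twL M ω χ) =ᶠ[𝓝 s] twL M ω χ := by
    filter_upwards [hev] with z hz
    exact hc.2 z hz
  have h2 : AnalyticAt ℂ (cont (twL M ω χ)) s := (lin_analytic hω hf hχ hs).congr h1.symm
  unfold TL
  rw [toMeromorphicNFOn_eq_toMeromorphicNFAt hc.1 (Set.mem_univ s),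
    toMeromorphicNFAt_eq_self.2 h2.meromorphicNFAt, hc.2 s hs]

theorem TL_analytic' (hω : ∀ v, ‖ω v‖ ≤ 1) (hf : LinC M ω S) {χ : (M ≃ₐ[K] M) → ℂ}
    (hχ : χ ∈ Irr (M ≃ₐ[K] M)) {s₀ : ℂ}
    (h : 0 ≤ meromorphicOrderAt (cont (twL M ω χ)) s₀) : AnalyticAt ℂ (TL M ω χ) s₀ := by
  rw [← TL_order' hω hf hχ s₀] at h
  have h2 : MeromorphicNFAt (TL M ω χ) s₀ :=
    (meromorphicNFOn_toMeromorphicNFOn _ _) (Set.mem_univ s₀)
  exact h2.meromorphicOrderAt_nonneg_iff_analyticAt.1 h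

/-- the continuation of the L-function of a representation -/
theorem rep_cont (hω : ∀ v, ‖ω v‖ ≤ 1) (hf : LinC M ω S)
    (hun : ∀ v : HeightOneSpectrum (𝓞 K), Unramified M v) {r : ℕ}
    (ρ : Representation ℂ (M ≃ₐ[K] M) (Fin r → ℂ)) :
    ∃ g : ℂ → ℂ, MeromorphicOn g Set.univ ∧
      (∀ s : ℂ, 1 < s.re → HasProd (fun v : HeightOneSpectrum (𝓞 K) =>
        (((ρ (frob M v)).charpoly.roots.map
          fun z => 1 - z * ω v * (nm v : ℂ) ^ (-s)).prod)⁻¹) (g s)) ∧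
      ∀ s₀ : ℂ, (∀ χ ∈ Irr (M ≃ₐ[K] M), (∑ᶠ g : M ≃ₐ[K] M, ρ.character g * χ g⁻¹ ≠ 0) →
        0 ≤ meromorphicOrderAt (cont (twL M ω χ)) s₀) → AnalyticAt ℂ g s₀ := by
  classical
  have fG : Fintype (M ≃ₐ[K] M) := Fintype.ofFinite _
  choose! m hm using fun (χ : (M ≃ₐ[K] M) → ℂ) (hχ : χ ∈ Irr (M ≃ₐ[K] M)) => char_mult ρ hχ
  have hexp : ρ.character = fun g => ∑ χ ∈ irrF (M ≃ₐ[K] M), (m χ : ℂ) * χ g := by
    funext g
    refine class_expand (fun g x => ρ.char_conj g x) (fun χ hχ => ?_) g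
    rw [← hm χ hχ, finsum_eq_sum_of_fintype]
  refine ⟨fun s => ∏ χ ∈ irrF (M ≃ₐ[K] M), TL M ω χ s ^ m χ, ?_, ?_, ?_⟩
  · intro s hs
    exact MeromorphicAt.fun_prod fun χ _ => (TL_mero χ s hs).fun_pow _
  · intro s hs
    have h1 := twL_prod hω hun ρ hs
    have h2 : twL M ω ρ.character s = ∏ χ ∈ irrF (M ≃ₐ[K] M), TL M ω χ s ^ m χ := by
      rw [hexp, twL_sum hω (irrF (M ≃ₐ[K] M)) m (fun χ => χ) hs]
      exact Finset.prod_congr rfl fun χ hχ => by rw [TL_eq' hω hf (mem_irrF.1 hχ) hs]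
    rw [h2] at h1
    exact h1
  · intro s₀ hs
    refine Finset.analyticAt_fun_prod _ fun χ hχ => ?_
    by_cases h0 : m χ = 0
    · rw [h0]
      simp only [pow_zero]
      exact analyticAt_const
    · refine (TL_analytic' hω hf (mem_irrF.1 hχ) (hs χ (mem_irrF.1 hχ) ?_)).fun_pow _
      rw [hm χ (mem_irrF.1 hχ)]
      have hc : (Nat.card (M ≃ₐ[K] M) : ℂ) ≠ 0 := by exact_mod_cast Nat.card_pos.ne'
      exact mul_ne_zero (by exact_mod_cast h0) hc

end

/-- an irreducible character of degree one is a homomorphism -/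
theorem exists_lin {G : Type} [Group G] [Finite G] {χ : G → ℂ} (hχ : χ ∈ Irr G) (h1 : χ 1 = 1) :
    ∃ l : G →* ℂˣ, χ = fun g => ((l g : ℂˣ) : ℂ) := by
  obtain ⟨n, ρ, hρ, rfl⟩ := hχ
  have hn : n = 1 := by
    have h2 := ρ.char_one
    rw [h1, Module.finrank_fintype_fun_eq_card, Fintype.card_fin] at h2
    exact_mod_cast h2.symm
  subst hn
  have hsc : ∀ g, ∀ v : Fin 1 → ℂ, ρ g v = (ρ g (fun _ => 1) 0) • v := by
    intro g v
    have hv : v = (v 0) • (fun _ => (1 : ℂ)) := by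
      funext i
      rw [Fin.fin_one_eq_zero i]
      simp
    have h3 : ρ g (fun _ => (1 : ℂ)) = (ρ g (fun _ => 1) 0) • (fun _ => (1 : ℂ)) := by
      funext i
      rw [Fin.fin_one_eq_zero i]
      simp
    calc ρ g v = ρ g ((v 0) • (fun _ => (1 : ℂ))) := by rw [← hv]
      _ = (v 0) • ρ g (fun _ => (1 : ℂ)) := map_smul _ _ _
      _ = (v 0) • ((ρ g (fun _ => 1) 0) • (fun _ => (1 : ℂ))) := by rw [← h3]
      _ = (ρ g (fun _ => 1) 0) • ((v 0) • (fun _ => (1 : ℂ))) := smul_comm _ _ _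
      _ = _ := by rw [← hv]
  let c : G →* ℂ :=
    { toFun := fun g => ρ g (fun _ => 1) 0
      map_one' := by rw [map_one, Module.End.one_apply]
      map_mul' := fun g h => by
        rw [map_mul, Module.End.mul_apply, hsc g]
        rfl }
  refine ⟨c.toHomUnits, ?_⟩
  funext g
  have h2 : ρ g = (c g) • (LinearMap.id : (Fin 1 → ℂ) →ₗ[ℂ] (Fin 1 → ℂ)) :=
    LinearMap.ext fun v => hsc g v
  change LinearMap.trace ℂ _ (ρ g) = _
  rw [h2, map_smul, LinearMap.trace_id, Module.finrank_fintype_fun_eq_card, Fintype.card_fin,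
    Nat.cast_one, smul_eq_mul, mul_one]
  rfl

/-- **Main theorem**, for one Hecke character and one representation. -/
theorem main_hol (k : Type) [Field k] [NumberField k] (N n₀ : ℕ) :
    ∃ (L : Type) (_ : Field L) (_ : NumberField L) (_ : Algebra k L), IsGalois k L ∧
      n₀ ≤ Module.finrank k L ∧
        ∀ (G : Type) [Group G] [Finite G], Nat.card G ≤ N →
          ∃ K : IntermediateField k L, Nonempty ((L ≃ₐ[K] L) ≃* G) ∧
            (∀ v : HeightOneSpectrum (𝓞 K), Unramified L v) ∧ IsUnramifiedAtInfinitePlaces K L ∧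
            ∀ (𝔣 : Ideal (𝓞 k)) (n : (k →+* ℂ) → ℤ) (ψ : Ideal (𝓞 k) →*₀ ℂ), IsHecke 𝔣 n 0 ψ →
            ∀ (r : ℕ) (ρ : Representation ℂ (L ≃ₐ[K] L) (Fin r → ℂ)),
              ∃ g : ℂ → ℂ, MeromorphicOn g Set.univ ∧
                (∀ s : ℂ, 1 < s.re → HasProd (fun v : HeightOneSpectrum (𝓞 K) =>
                  (((ρ (frob L v)).charpoly.roots.map fun z => 1 - z *
                    ψ (Ideal.relNorm (𝓞 k) v.asIdeal) * (nm v : ℂ) ^ (-s)).prod)⁻¹) (g s)) ∧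
                (∀ s : ℂ, 0 < s.re → s ≠ 1 → AnalyticAt ℂ g s) ∧
                ((NT n ∨ ∀ v : Fin r → ℂ, (∃ T : Finset (HeightOneSpectrum (𝓞 K)), ∀ w ∉ T,
                  ∀ σ : L ≃ₐ[K] L, IsFrobenius w σ →
                  ψ (Ideal.relNorm (𝓞 k) w.asIdeal) • ρ σ v = v) → v = 0) →
                    AnalyticAt ℂ g 1) := by
  obtain ⟨m₀, hm₀, hcore⟩ := core N 1 one_pos
  obtain ⟨L, iL, iN, iA, hgal, hdeg, m, j, hm, hdvd, hK⟩ := fields k N n₀ m₀ hm₀
  refine ⟨L, iL, iN, iA, hgal, hdeg, fun G _ _ hG => ?_⟩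
  obtain ⟨K, hiso, hun, hinf, ι, hι, hj⟩ := hK G hG
  refine ⟨K, hiso, hun, hinf, ?_⟩
  intro 𝔣 n ψ h r ρ
  have hω : ∀ v : HeightOneSpectrum (𝓞 k), ‖ψ v.asIdeal‖ ≤ 1 := fun v => norm_le h _
  have hcard : Nat.card (L ≃ₐ[K] L) ≤ N := by
    obtain ⟨e⟩ := hiso
    rw [Nat.card_congr e.toEquiv]
    exact hG
  have hup : ∀ v : HeightOneSpectrum (𝓞 K), upW k (fun v => ψ v.asIdeal) v =
      ψ (Ideal.relNorm (𝓞 k) v.asIdeal) := fun v => (nrmc_prime ψ v).symm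
  by_cases hk : NT n
  · have hlin := linC_nt (M := L) h hk
    have hc := hcore m hm hdvd k K L j ι hι hcard hj (fun v => ψ v.asIdeal) _ hω hlin
      (fun s hs => hs)
    obtain ⟨g, h1, h2, h3⟩ := rep_cont (norm_upW hω) (hlin.up (F := K) hω (fun s hs => hs)) hun ρ
    have h4 : ∀ s : ℂ, 0 < s.re → AnalyticAt ℂ g s := fun s hs => h3 s fun χ hχ _ => by
      obtain ⟨o, ho, -⟩ := hc s hs
      rw [(ho χ hχ).1]
      exact_mod_cast (ho χ hχ).2
    refine ⟨g, h1, fun s hs => ?_, fun s hs _ => h4 s hs, fun _ => h4 1 one_re_pos⟩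
    have h5 := h2 s hs
    simp only [hup] at h5
    exact h5
  · have hlin := linC_triv (M := L) h hk
    have hc := hcore m hm hdvd k K L j ι hι hcard hj (fun v => ψ v.asIdeal) _ hω hlin
      (fun s hs => hs.1)
    have hlin' := hlin.up (F := K) hω (fun s hs => hs.1)
    obtain ⟨g, h1, h2, h3⟩ := rep_cont (norm_upW hω) hlin' hun ρ
    refine ⟨g, h1, fun s hs => ?_, fun s hs hs1 => h3 s fun χ hχ _ => ?_, fun hstar => ?_⟩
    · have h5 := h2 s hs
      simp only [hup] at h5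
      exact h5
    · obtain ⟨o, ho, -⟩ := hc s ⟨hs, hs1⟩
      rw [(ho χ hχ).1]
      exact_mod_cast (ho χ hχ).2
    · have hstar' := hstar.resolve_left hk
      refine h3 1 fun χ hχ hmult => ?_
      by_cases hd : χ 1 = 1
      · obtain ⟨l, rfl⟩ := exists_lin hχ hd
        rcases lin_star (F := K) (L := L) h hk l with h5 | ⟨T, hT⟩
        · exact h5
        · exfalso
          obtain ⟨v, hv, hve⟩ := eigvec ρ l hmult
          refine hv (hstar' v ⟨T, fun w hw σ hσ => ?_⟩)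
          obtain ⟨x, hx⟩ := isFrobenius_conj (hun w) (frob_spec (M := L) w) hσ
          have h6 : l σ = l (frob L w) := by
            rw [hx, map_mul, map_mul, map_inv, mul_comm ((l x)⁻¹), inv_mul_cancel_right]
          rw [hve, h6, smul_smul, mul_comm, hT w hw, one_smul]
      · rw [order_one_zero (norm_upW hω) hlin' ((lin1_triv (M := L) h hk).up (F := K) hω hlin
          (fun s hs => hs.1)) hχ hd]

end Pool.Agent.H511.Cm
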