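import Pool.Agent.H511.Cm.Up
import Pool.Agent.H511.Ex.Tw3

/-!
# Heilbronn's argument for twists, over intermediate fields
-/

set_option autoImplicit false
set_option linter.unusedSectionVars false

namespace Pool.Agent.H511.Cm

open NumberField IsDedekindDomain Filter Topology Pool.Agent.H921R2.TatePole Pool.Agent.W353.NF
  Pool.Agent.Q5.BR Pool.Agent.H541R3.ART Pool.Agent.Q92.AR Pool.Agent.H302R2 Pool.Agent.H511.Ex
  Pool.Agent.W446.AS Pool.Agent.Y786.FR Equiv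
open Pool.Agent.Q92.RT (induced induced_conj induced_pair class_expand)

section
variable {K M : Type} [Field K] [NumberField K] [Field M] [NumberField M] [Algebra K M]
  [IsGalois K M]

/-- the twisted L-functions of the linear characters of the subgroups have meromorphic continuations
which are analytic on `S` and for `Re s > 1` -/
def LinC (M : Type) [Field M] [NumberField M] [Algebra K M] (ω : HeightOneSpectrum (𝓞 K) → ℂ)
    (S : Set ℂ) : Prop :=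
  ∀ (H : Subgroup (M ≃ₐ[K] M)) (ψ : H →* ℂˣ), ∃ g : ℂ → ℂ,
    Continues g (twL M ω (induced H ψ)) ∧ (∀ s : ℂ, 1 < s.re → AnalyticAt ℂ g s) ∧
      ∀ s ∈ S, AnalyticAt ℂ g s

variable {ω : HeightOneSpectrum (𝓞 K) → ℂ} {S : Set ℂ}

theorem lin_continues (hω : ∀ v, ‖ω v‖ ≤ 1) (hf : LinC M ω S) {χ : (M ≃ₐ[K] M) → ℂ}
    (hχ : χ ∈ Irr (M ≃ₐ[K] M)) :
    ∃ g : ℂ → ℂ, Continues g (twL M ω χ) := by
  obtain ⟨ι, _, H, ψ, n, h⟩ := brauer _ χ hχ
  choose g hg _ using fun i => hf (H i) (ψ i)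
  refine ⟨fun s => ∏ i, g i s ^ n i, fun s hs => ?_, fun s hs => ?_⟩
  · exact MeromorphicAt.fun_prod fun i _ => ((hg i).1 s hs).fun_zpow _
  · have h1 : χ = fun g => ∑ i, (n i : ℂ) * induced (H i) (ψ i) g := funext h
    rw [h1, twL_sum_int hω Finset.univ n (fun i => induced (H i) (ψ i)) hs]
    exact Finset.prod_congr rfl fun i _ => by rw [(hg i).2 s hs]

theorem lin_analytic (hω : ∀ v, ‖ω v‖ ≤ 1) (hf : LinC M ω S) {χ : (M ≃ₐ[K] M) → ℂ}
    (hχ : χ ∈ Irr (M ≃ₐ[K] M)) {s : ℂ} (hs : 1 < s.re) : AnalyticAt ℂ (twL M ω χ) s := by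
  obtain ⟨ι, _, H, ψ, n, h⟩ := brauer _ χ hχ
  choose g hg hg2 hg3 using fun i => hf (H i) (ψ i)
  have hopen : IsOpen {s : ℂ | 1 < s.re} := isOpen_lt continuous_const Complex.continuous_re
  have hev : ∀ᶠ z in 𝓝 s, z ∈ {s : ℂ | 1 < s.re} := hopen.mem_nhds hs
  have h1 : χ = fun g => ∑ i, (n i : ℂ) * induced (H i) (ψ i) g := funext h
  have h2 : twL M ω χ =ᶠ[𝓝 s] fun z => ∏ i, g i z ^ n i := by
    filter_upwards [hev] with z hz
    rw [h1, twL_sum_int hω Finset.univ n (fun i => induced (H i) (ψ i)) hz]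
    exact Finset.prod_congr rfl fun i _ => by rw [(hg i).2 z hz]
  refine AnalyticAt.congr ?_ h2.symm
  refine Finset.analyticAt_fun_prod _ fun i _ => (hg2 i s hs).fun_zpow ?_
  rw [(hg i).2 s hs]
  exact twL_ne_zero _ _ _

/-- **The twisted Artin L-functions form an `ArtinData`.** -/
noncomputable def linData (hω : ∀ v, ‖ω v‖ ≤ 1) (hf : LinC M ω S) {s₀ : ℂ} (h0 : s₀ ∈ S) :
    ArtinData (M ≃ₐ[K] M) s₀ where
  L χ := cont (twL M ω χ)
  Lin H ψ := cont (twL M ω (induced H ψ))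
  mero χ hχ :=
    ⟨(cont_spec (lin_continues hω hf hχ)).1 s₀ (Set.mem_univ _),
      (cont_spec (lin_continues hω hf hχ)).order_ne_top (fun s _ => twL_ne_zero ω χ s) s₀⟩
  hecke H ψ := by
    obtain ⟨g, hg, -, hg2⟩ := hf H ψ
    rw [(cont_spec ⟨g, hg⟩).order_eq hg (fun _ _ => rfl) s₀]
    exact (hg2 s₀ h0).meromorphicOrderAt_nonneg
  induce H ψ m hm := by
    obtain ⟨g, hg, -, hg2⟩ := hf H ψ
    have hp : Continues (fun s => ∏ χ ∈ irrF (M ≃ₐ[K] M), cont (twL M ω χ) s ^ m χ)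
        (twL M ω (induced H ψ)) := by
      refine ⟨fun s hs => ?_, fun s hs => ?_⟩
      · exact MeromorphicAt.fun_prod fun χ hχ =>
          ((cont_spec (lin_continues hω hf (mem_irrF.1 hχ))).1 s hs).fun_pow _
      · rw [twL_induced_prod hω H ψ hm hs]
        exact Finset.prod_congr rfl fun χ hχ => by
          rw [(cont_spec (lin_continues hω hf (mem_irrF.1 hχ))).2 s hs]
    have h1 := (cont_spec ⟨g, hg⟩).eventuallyEq hp (fun _ _ => rfl) s₀
    filter_upwards [h1] with s hs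
    rw [hs, finprod_mem_eq_finite_toFinset_prod _ (irr_finite (G := M ≃ₐ[K] M))]
    rfl

end

section
variable {k F L : Type} [Field k] [NumberField k] [Field F] [NumberField F] [Field L] [NumberField L]
  [Algebra k F] [Algebra k L] [Algebra F L] [IsScalarTower k F L] [IsGalois k L] [IsGalois F L]
variable {ω : HeightOneSpectrum (𝓞 k) → ℂ} {S : Set ℂ}

theorem lin_prod (hω : ∀ v, ‖ω v‖ ≤ 1) (hf : LinC L ω S) (v : ((L ≃ₐ[k] L) → ℂ) → ℕ) :
    Continues (fun s => ∏ ψ ∈ irrF (L ≃ₐ[k] L), cont (twL L ω ψ) s ^ v ψ)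
      (fun s => ∏ ψ ∈ irrF (L ≃ₐ[k] L), twL L ω ψ s ^ v ψ) := by
  refine ⟨fun s hs => ?_, fun s hs => ?_⟩
  · exact MeromorphicAt.fun_prod fun ψ hψ =>
      ((cont_spec (lin_continues hω hf (mem_irrF.1 hψ))).1 s hs).fun_pow _
  · exact Finset.prod_congr rfl fun ψ hψ => by
      rw [(cont_spec (lin_continues hω hf (mem_irrF.1 hψ))).2 s hs]

/-- the restriction of the property to the extensions of the base field -/
theorem LinC.up (hω : ∀ v, ‖ω v‖ ≤ 1) (hf : LinC L ω S) (hS : ∀ s ∈ S, 0 < s.re) :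
    LinC (K := F) L (upW k ω) S := by
  intro H ψ
  obtain ⟨X', ψ', e, ⟨E, h1, h2, h3⟩, -, -⟩ := cmp_sub (K := k) hω H ψ
  obtain ⟨g, hg, hg2, hg3⟩ := hf X' ψ'
  refine ⟨fun s => E s * g s, ⟨fun s hs => (h1 s hs).fun_mul (hg.1 s hs), fun s hs => ?_⟩,
    fun s hs => (h3 s (by linarith)).1.fun_mul (hg2 s hs),
    fun s hs => (h3 s (hS s hs)).1.fun_mul (hg3 s hs)⟩
  change E s * g s = _
  rw [h2 s hs, hg.2 s hs]

/-- the orders of the L-functions of `L/F` -/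
theorem lin_order (hω : ∀ v, ‖ω v‖ ≤ 1) (hf : LinC L ω S) (hS : ∀ s ∈ S, 0 < s.re)
    {χ : (L ≃ₐ[F] L) → ℂ} (hχ : χ ∈ Irr (L ≃ₐ[F] L)) (v : ((L ≃ₐ[k] L) → ℂ) → ℕ)
    (hv : ∀ ψ ∈ Irr (L ≃ₐ[k] L), ∑ᶠ g : L ≃ₐ[F] L, ψ (inc k F L g) * χ g⁻¹ =
      (v ψ : ℂ) * (Nat.card (L ≃ₐ[F] L) : ℂ)) {s₀ : ℂ} (h0 : s₀ ∈ S) :
    meromorphicOrderAt (cont (twL L (upW k ω) χ)) s₀ =
      ((∑ ψ ∈ irrF (L ≃ₐ[k] L), (v ψ : ℤ) * (linData hω hf h0).ord ψ : ℤ) : WithTop ℤ) := by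
  rw [(cmp_irr hω hχ v hv).order
    (cont_spec (lin_continues (norm_upW hω) (hf.up hω hS) hχ)) (lin_prod hω hf v) (hS s₀ h0)]
  refine order_M (linData hω hf h0) v (Filter.Eventually.of_forall fun s => ?_)
  simp only
  rw [finprod_mem_eq_finite_toFinset_prod _ (irr_finite (G := L ≃ₐ[k] L))]
  rfl

end

/-- **Main theorem.** -/
theorem core (N : ℕ) (ε : ℝ) (hε : 0 < ε) : ∃ m₀ : ℕ, 0 < m₀ ∧ ∀ m : ℕ, 0 < m → m₀ ∣ m →
    ∀ (k F L : Type) [Field k] [NumberField k] [Field F] [NumberField F] [Field L] [NumberField L]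
      [Algebra k F] [Algebra k L] [Algebra F L] [IsScalarTower k F L] [IsGalois k L] [IsGalois F L]
      (j : Perm (Fin m) →* (L ≃ₐ[k] L)) (ι : (L ≃ₐ[F] L) →* Perm (Fin m)), FreeHom ι →
      Nat.card (L ≃ₐ[F] L) ≤ N → (∀ g, j (ι g) = inc k F L g) →
      ∀ (ω : HeightOneSpectrum (𝓞 k) → ℂ) (S : Set ℂ), (∀ v, ‖ω v‖ ≤ 1) → LinC L ω S →
        (∀ s ∈ S, 0 < s.re) → ∀ s₀ ∈ S, ∃ o : ((L ≃ₐ[F] L) → ℂ) → ℤ,
        (∀ χ ∈ Irr (L ≃ₐ[F] L), meromorphicOrderAt (cont (twL L (upW k ω) χ)) s₀ = o χ ∧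
          0 ≤ o χ) ∧
        ∀ χ ∈ Irr (L ≃ₐ[F] L), χ ≠ (fun _ => 1) → ∀ χ' ∈ Irr (L ≃ₐ[F] L),
          o χ * (χ' 1).re ≤ (1 + ε) * (o χ' * (χ 1).re) := by
  classical
  obtain ⟨m₀, hm₀, hm⟩ := free_mult N ε hε
  refine ⟨m₀, hm₀, ?_⟩
  intro m hmpos hdvd k F L _ _ _ _ _ _ _ _ _ _ _ _ j ι hι hN hj ω S hω hf hS s₀ h0
  have fG : Fintype (L ≃ₐ[F] L) := Fintype.ofFinite _
  have fΓ : Fintype (L ≃ₐ[k] L) := Fintype.ofFinite _
  have hG' : Fintype.card (L ≃ₐ[F] L) ≤ N := by rwa [← Nat.card_eq_fintype_card]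
  choose! v hv using fun (χ : (L ≃ₐ[F] L) → ℂ) (hχ : χ ∈ Irr (L ≃ₐ[F] L)) (ψ : (L ≃ₐ[k] L) → ℂ)
    (hψ : ψ ∈ Irr (L ≃ₐ[k] L)) => exists_mult_hom hψ (inc k F L) hχ
  have hpair : ∀ n : ((L ≃ₐ[k] L) → ℂ) → ℤ, ∀ χ ∈ Irr (L ≃ₐ[F] L),
      ∑ g : L ≃ₐ[F] L, theta n (j (ι g)) * χ g⁻¹ =
        ((∑ ψ ∈ irrF (L ≃ₐ[k] L), (v χ ψ : ℤ) * n ψ : ℤ) : ℂ) * Fintype.card (L ≃ₐ[F] L) := by
    intro n χ hχ
    have h1 := theta_pair_hom n (inc k F L) χ (v χ) (hv χ hχ)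
    rw [Nat.card_eq_fintype_card] at h1
    rw [← h1]
    exact Finset.sum_congr rfl fun g _ => by rw [hj]
  obtain ⟨h2, h3⟩ := hm m hmpos hdvd (fun σ => theta (linData hω hf h0).ord (j σ))
    ((linData hω hf h0).isHeilbronn.comp j) (L ≃ₐ[F] L) hG' ι hι
    (fun χ => ∑ ψ ∈ irrF (L ≃ₐ[k] L), (v χ ψ : ℤ) * (linData hω hf h0).ord ψ)
    (hpair (linData hω hf h0).ord)
  exact ⟨fun χ => ∑ ψ ∈ irrF (L ≃ₐ[k] L), (v χ ψ : ℤ) * (linData hω hf h0).ord ψ,
    fun χ hχ => ⟨lin_order hω hf hS hχ (v χ) (hv χ hχ) h0, h2 χ hχ⟩, h3⟩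

/-- **The fields.** -/
theorem fields (k : Type) [Field k] [NumberField k] (N n₀ m₀ : ℕ) (hm₀ : 0 < m₀) :
    ∃ (L : Type) (_ : Field L) (_ : NumberField L) (_ : Algebra k L), IsGalois k L ∧
      n₀ ≤ Module.finrank k L ∧ ∃ (m : ℕ) (j : Perm (Fin m) →* (L ≃ₐ[k] L)), 0 < m ∧ m₀ ∣ m ∧
        ∀ (G : Type) [Group G] [Finite G], Nat.card G ≤ N →
          ∃ K : IntermediateField k L, Nonempty ((L ≃ₐ[K] L) ≃* G) ∧
            (∀ v : HeightOneSpectrum (𝓞 K), Unramified L v) ∧ IsUnramifiedAtInfinitePlaces K L ∧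
            ∃ ι : (L ≃ₐ[K] L) →* Perm (Fin m), FreeHom ι ∧ ∀ g, j (ι g) = inc k K L g := by
  classical
  set m' : ℕ := m₀ * (N.factorial * (Module.finrank ℚ k + n₀ + 5)) with hm'
  have hm'5 : Module.finrank ℚ k + n₀ + 5 ≤ m' := by
    rw [hm']
    have h1 := Nat.factorial_pos N
    have h2 : 1 ≤ m₀ * N.factorial := Nat.mul_pos hm₀ h1
    calc Module.finrank ℚ k + n₀ + 5 ≤ (m₀ * N.factorial) * (Module.finrank ℚ k + n₀ + 5) :=
        Nat.le_mul_of_pos_left _ h2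
      _ = _ := by ring
  have hdvd : m₀ ∣ m' := Dvd.intro _ rfl
  have hpos : 0 < m' := by omega
  obtain ⟨L, iL, iN, iA, hgal, Φ, hΦ, halt, hiner, hconj⟩ :=
    exists_field k (2 * m') (by omega) (by omega)
  let e := MonoidHom.ofInjective hΦ
  let d : Perm (Fin m') →* Φ.range := (dbl m').codRestrict Φ.range fun σ => halt (dbl_mem m' σ)
  let j : Perm (Fin m') →* (L ≃ₐ[k] L) := e.symm.toMonoidHom.comp d
  have hj : ∀ σ, Φ (j σ) = dbl m' σ := by
    intro σ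
    have h1 : ((e (e.symm (d σ)) : Φ.range) : Perm (Fin (2 * m'))) = dbl m' σ := by
      rw [MulEquiv.apply_symm_apply]
      rfl
    exact h1
  have hjinj : Function.Injective j := by
    intro a b hab
    apply dbl_injective m'
    rw [← hj, ← hj, hab]
  refine ⟨L, iL, iN, iA, hgal, ?_, m', j, hpos, hdvd, ?_⟩
  · have h1 : Nat.card (Perm (Fin m')) ≤ Nat.card (L ≃ₐ[k] L) :=
      Nat.card_le_card_of_injective j hjinj
    rw [Nat.card_perm, Nat.card_fin, IsGalois.card_aut_eq_finrank] at h1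
    have h2 : m' ≤ m'.factorial := Nat.self_le_factorial m'
    omega
  intro G _ _ hG
  obtain ⟨e0, he0⟩ := exists_freeHom G (m := m')
    ((Nat.dvd_factorial Nat.card_pos hG).trans
      ((Dvd.intro _ rfl : N.factorial ∣ N.factorial * (Module.finrank ℚ k + n₀ + 5)).trans
        (Dvd.intro_left _ rfl)))
  have hinj : Function.Injective (j.comp e0) := hjinj.comp (he0.inj hpos)
  let S : Subgroup (L ≃ₐ[k] L) := (j.comp e0).range
  let K : IntermediateField k L := IntermediateField.fixedField S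
  have hS : fixer k K L = S := fixer_fixedField S
  let κ : (L ≃ₐ[K] L) ≃* G := (eF k K L).trans ((MulEquiv.subgroupCongr hS).trans
    (MonoidHom.ofInjective hinj).symm)
  let ι : (L ≃ₐ[K] L) →* Perm (Fin m') := e0.comp κ.toMonoidHom
  have hι : FreeHom ι := by
    intro g hg x
    exact he0 (κ g) (fun h => hg (κ.injective (by rw [h, map_one]))) x
  have hji : ∀ g, j (ι g) = inc k K L g := by
    intro g
    have h1 : ((MonoidHom.ofInjective hinj ((MonoidHom.ofInjective hinj).symm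
        ((MulEquiv.subgroupCongr hS) (eF k K L g))) : (j.comp e0).range) : L ≃ₐ[k] L) =
        inc k K L g := by
      rw [MulEquiv.apply_symm_apply]
      rfl
    exact h1
  refine ⟨K, ⟨κ⟩, ?_, ?_, ι, hι, hji⟩
  · refine unram_of_inertia fun P hP g hg => ?_
    have h1 : inc k K L g ∈ P.inertia (L ≃ₐ[k] L) := hg
    have h2 := hiner P hP _ h1
    rw [← hji, hj] at h2
    have h3 : dbl m' (ι g) = 1 := by
      rcases h2 with h2 | h2
      · exact h2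
      · have h4 := dbl_mem m' (ι g)
        rw [Equiv.Perm.mem_alternatingGroup, h2.sign_eq] at h4
        exact absurd h4 (by decide)
    have h5 : ι g = 1 := dbl_injective m' (by rw [h3, map_one])
    have h6 : j (ι g) = 1 := by rw [h5, map_one]
    rw [hji] at h6
    exact inc_injective (by rw [h6, map_one])
  · refine ⟨fun w => ?_⟩
    rw [← InfinitePlace.mk_embedding w, InfinitePlace.isUnramified_mk_iff_forall_isConj]
    intro g hg
    have h1 : ComplexEmbedding.IsConj w.embedding (inc k K L g) := hg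
    obtain ⟨i, hi⟩ := hconj _ _ h1
    rw [← hji, hj] at hi
    by_contra hne
    have h2 : ∀ x, ι g x ≠ x := hι g hne
    obtain ⟨⟨y, x⟩, rfl⟩ := finProdFinEquiv.surjective i
    change finProdFinEquiv ((Equiv.prodCongrRight fun _ : Fin 2 => ι g)
      (finProdFinEquiv.symm (finProdFinEquiv (y, x)))) = _ at hi
    rw [Equiv.symm_apply_apply] at hi
    have h3 := finProdFinEquiv.injective hi
    exact h2 x (congrArg Prod.snd h3)

end Pool.Agent.H511.Cm
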