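import Pool.Agent.H511.Cm.Rep
import Pool.Agent.H511.Ex.Zer
import Pool.Graph.R_pool_sql_team_seeded_63374d34.N134.HS.Nvq

/-!
# The point `s = 1`
-/

set_option autoImplicit false
set_option linter.unusedSectionVars false

namespace Pool.Agent.H511.Cm

open NumberField IsDedekindDomain Filter Topology Pool.Agent.H921R2.TatePole Pool.Agent.W353.NF
  Pool.Agent.Q5.BR Pool.Agent.H541R3.ART Pool.Agent.Q92.AR Pool.Agent.H302R2 Pool.Agent.H511.Ex
  Pool.Agent.W446.AS Pool.Agent.Y786.FR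
open Pool.Agent.Q92.RT (induced induced_conj induced_pair class_expand)
open Pool.Agent.Y773 (LI)
open Pool.Agent.N172.HS (nrmc IsHecke)

section chars
variable {G : Type} [Group G] [Finite G]

theorem sum_sq_le {n : (G → ℂ) → ℤ} (hθ : IsHeilbronn (theta n : G → ℂ)) {r : ℕ}
    (hr : (theta n : G → ℂ) 1 = r) : ∑ χ ∈ irrF G, n χ ^ 2 ≤ (r : ℤ) ^ 2 := by
  classical
  have : Fintype G := Fintype.ofFinite G
  have h1 : ∑ g : G, (theta n : G → ℂ) g * (theta n : G → ℂ) g⁻¹ =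
      ((∑ χ ∈ irrF G, n χ ^ 2 : ℤ) : ℂ) * Nat.card G := by
    have h2 : ∀ g : G, (theta n : G → ℂ) g * (theta n : G → ℂ) g⁻¹ =
        ∑ χ ∈ irrF G, (n χ : ℂ) * ((theta n : G → ℂ) g * χ g⁻¹) := by
      intro g
      have h3 : (theta n : G → ℂ) g⁻¹ = ∑ χ ∈ irrF G, (n χ : ℂ) * χ g⁻¹ := rfl
      rw [h3, Finset.mul_sum]
      exact Finset.sum_congr rfl fun χ _ => by ring
    rw [Finset.sum_congr rfl fun g _ => h2 g, Finset.sum_comm]
    push_cast
    rw [Finset.sum_mul]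
    refine Finset.sum_congr rfl fun χ hχ => ?_
    rw [← Finset.mul_sum, theta_pair n (mem_irrF.1 hχ)]
    ring
  have h2 : ‖∑ g : G, (theta n : G → ℂ) g * (theta n : G → ℂ) g⁻¹‖ ≤
      (r : ℝ) ^ 2 * Nat.card G := by
    calc ‖∑ g : G, (theta n : G → ℂ) g * (theta n : G → ℂ) g⁻¹‖ ≤
          ∑ g : G, ‖(theta n : G → ℂ) g * (theta n : G → ℂ) g⁻¹‖ := norm_sum_le _ _
      _ ≤ ∑ _g : G, (r : ℝ) ^ 2 := by
        refine Finset.sum_le_sum fun g _ => ?_
        rw [norm_mul, pow_two]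
        have h3 := hθ.norm_le g
        have h4 := hθ.norm_le g⁻¹
        rw [hr, Complex.natCast_re] at h3 h4
        exact mul_le_mul h3 h4 (norm_nonneg _) (Nat.cast_nonneg r)
      _ = (r : ℝ) ^ 2 * Nat.card G := by
        rw [Finset.sum_const, Finset.card_univ, nsmul_eq_mul, Nat.card_eq_fintype_card]
        ring
  rw [h1, norm_mul, Complex.norm_intCast, Complex.norm_natCast] at h2
  have hG : (0 : ℝ) < Nat.card G := by exact_mod_cast Nat.card_pos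
  have h3 := (le_abs_self _).trans (le_of_mul_le_mul_right h2 hG)
  exact_mod_cast h3

theorem irr_zero {n : (G → ℂ) → ℤ} (hθ : IsHeilbronn (theta n : G → ℂ)) {r : ℕ}
    (hr : (theta n : G → ℂ) 1 = r) (hr1 : r ≤ 1) {χ : G → ℂ} (hχ : χ ∈ Irr G) (h1 : χ 1 ≠ 1) :
    n χ = 0 := by
  classical
  by_contra h
  have hs := sum_sq_le hθ hr
  have hr2 : (r : ℤ) ^ 2 ≤ 1 := by
    have : (r : ℤ) ≤ 1 := by exact_mod_cast hr1
    have h0 : (0 : ℤ) ≤ r := by positivity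
    nlinarith
  have hχF : χ ∈ irrF G := mem_irrF.2 hχ
  have hge : 1 ≤ n χ ^ 2 := by
    have := sq_pos_of_ne_zero h
    omega
  have hrest : ∑ χ' ∈ (irrF G).erase χ, n χ' ^ 2 ≤ 0 := by
    have := Finset.add_sum_erase (irrF G) (fun χ' => n χ' ^ 2) hχF
    beta_reduce at this
    omega
  have hzero : ∀ χ' ∈ (irrF G).erase χ, n χ' = 0 := by
    intro χ' hχ'
    have h2 := (Finset.sum_eq_zero_iff_of_nonneg (s := (irrF G).erase χ)
      (f := fun χ' => n χ' ^ 2) fun i _ => sq_nonneg _).1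
      (le_antisymm hrest (Finset.sum_nonneg fun i _ => sq_nonneg _)) χ' hχ'
    exact pow_eq_zero_iff (two_ne_zero) |>.1 h2
  have hle : n χ ^ 2 ≤ 1 := by
    have h2 := Finset.single_le_sum (f := fun χ' => n χ' ^ 2) (s := irrF G)
      (fun i _ => sq_nonneg _) hχF
    beta_reduce at h2
    omega
  obtain ⟨d, hd, hd1⟩ := irr_deg hχ
  have h3 : (theta n : G → ℂ) 1 = (n χ : ℂ) * χ 1 := by
    rw [sum_deg, ← Finset.add_sum_erase _ _ hχF, Finset.sum_eq_zero fun χ' hχ' => by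
      rw [hzero χ' hχ', Int.cast_zero, zero_mul], add_zero]
  rw [hr, hd1] at h3
  have h4 : (r : ℤ) = n χ * d := by exact_mod_cast h3
  have h5 : n χ = 1 ∨ n χ = -1 := by
    have h6 : n χ ^ 2 = 1 := le_antisymm hle hge
    exact sq_eq_one_iff.1 h6
  apply h1
  rw [hd1]
  rcases h5 with h5 | h5
  · rw [h5, one_mul] at h4
    have : d = 1 := by omega
    rw [this, Nat.cast_one]
  · rw [h5] at h4
    omega

end chars

/-! ### Hecke L-functions of trivial type at `s = 1` -/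

section
variable {F : Type} [Field F] [NumberField F]

theorem LI_re_ge {η : Ideal (𝓞 F) →*₀ ℂ} (hη : ∀ 𝔞, η 𝔞 = 0 ∨ η 𝔞 = 1) {σ : ℝ} (hσ : 1 < σ) :
    1 ≤ (LI η (σ : ℂ)).re := by
  have hle : ∀ 𝔞, ‖η 𝔞‖ ≤ 1 := by
    intro 𝔞
    rcases hη 𝔞 with h | h <;> rw [h] <;> simp
  have hs : 1 < ((σ : ℂ)).re := by rw [Complex.ofReal_re]; exact hσ
  have hsum := Pool.Agent.Y773.G.summable_LI hle hs
  have hterm : ∀ 𝔞 : Ideal (𝓞 F), 0 ≤ (η 𝔞 * ((Ideal.absNorm 𝔞 : ℕ) : ℂ) ^ (-(σ : ℂ))).re := by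
    intro 𝔞
    rcases hη 𝔞 with h | h
    · rw [h, zero_mul]
      simp
    · rw [h, one_mul, ← Complex.ofReal_neg, ← Complex.ofReal_natCast,
        ← Complex.ofReal_cpow (Nat.cast_nonneg _), Complex.ofReal_re]
      exact Real.rpow_nonneg (Nat.cast_nonneg _) _
  have hre := Complex.hasSum_re hsum.hasSum
  have h1 := le_hasSum hre (⊤ : Ideal (𝓞 F)) fun 𝔞 _ => hterm 𝔞
  have h2 : (η ⊤ * ((Ideal.absNorm (⊤ : Ideal (𝓞 F)) : ℕ) : ℂ) ^ (-(σ : ℂ))).re = 1 := by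
    rw [← Ideal.one_eq_top, map_one, map_one, Nat.cast_one, Complex.one_cpow, one_mul,
      Complex.one_re]
  rw [h2] at h1
  exact h1

theorem one_mem_closure : Tendsto (fun σ : ℝ => (σ : ℂ)) (𝓝[>] 1) (𝓝[≠] (1 : ℂ)) := by
  refine tendsto_nhdsWithin_iff.2 ⟨?_, ?_⟩
  · have h : Tendsto (fun σ : ℝ => (σ : ℂ)) (𝓝 1) (𝓝 ((1 : ℝ) : ℂ)) :=
      Complex.continuous_ofReal.tendsto 1
    rw [Complex.ofReal_one] at h
    exact h.mono_left nhdsWithin_le_nhds
  · filter_upwards [self_mem_nhdsWithin] with σ hσ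
    intro h
    have h2 : (σ : ℂ) = 1 := h
    have h3 : σ = 1 := by exact_mod_cast h2
    rw [h3] at hσ
    exact lt_irrefl (1 : ℝ) hσ

/-- the order at `s = 1` is `0` or `-1` -/
theorem ord_one {𝔣 : Ideal (𝓞 F)} {k : (F →+* ℂ) → ℤ} {η : Ideal (𝓞 F) →*₀ ℂ}
    (h : IsHecke 𝔣 k 0 η) (htop : 𝔣 ≠ ⊤) (hk : ¬ NT k) :
    ∃ f : ℂ → ℂ, MeromorphicOn f Set.univ ∧ (∀ s : ℂ, 1 < s.re → f s = LI η s) ∧
      (∀ s : ℂ, 0 < s.re → s ≠ 1 → AnalyticAt ℂ f s) ∧ (-1 ≤ meromorphicOrderAt f 1) ∧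
      (meromorphicOrderAt f 1 ≤ 0) ∧
      ((∃ 𝔞, η 𝔞 ≠ 0 ∧ η 𝔞 ≠ 1) → meromorphicOrderAt f 1 = 0) := by
  obtain ⟨f, hf1, hf2, hf3, hf4, hf5⟩ := cont_triv h htop hk
  have hnt : (∃ 𝔞, η 𝔞 ≠ 0 ∧ η 𝔞 ≠ 1) → meromorphicOrderAt f 1 = 0 := by
    intro hη
    have ha := hf5 hη
    obtain ⟨G, hG1, hG2, hG3⟩ := Pool.Agent.N172.HS.nonvanishing Pool.Agent.N134.HS.t_nvq h hη
    have h1 : f =ᶠ[𝓝 1] G := by
      refine (AnalyticAt.frequently_eq_iff_eventually_eq ha hG1).1 ?_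
      have h2 : ∀ᶠ σ : ℝ in 𝓝[>] 1, f (σ : ℂ) = G (σ : ℂ) := by
        filter_upwards [self_mem_nhdsWithin] with σ hσ
        have h3 : 1 < ((σ : ℂ)).re := by rw [Complex.ofReal_re]; exact hσ
        rw [hf2 _ h3, hG3 _ h3]
      exact one_mem_closure.frequently h2.frequently
    have h2 : f 1 ≠ 0 := by
      rw [h1.self_of_nhds]
      exact hG2
    rw [ha.meromorphicOrderAt_eq, ha.analyticOrderAt_eq_zero.2 h2]
    rfl
  refine ⟨f, hf1, hf2, hf3, hf4, ?_, hnt⟩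
  by_cases hη : ∃ 𝔞, η 𝔞 ≠ 0 ∧ η 𝔞 ≠ 1
  · exact (hnt hη).le
  · push Not at hη
    have h01 : ∀ 𝔞, η 𝔞 = 0 ∨ η 𝔞 = 1 := by
      intro 𝔞
      by_cases h0 : η 𝔞 = 0
      · exact Or.inl h0
      · exact Or.inr (hη 𝔞 h0)
    by_contra hcon
    push Not at hcon
    have h1 := tendsto_zero_of_meromorphicOrderAt_pos hcon
    have h2 := h1.comp one_mem_closure
    have h3 : ∀ᶠ σ : ℝ in 𝓝[>] 1, ‖f (σ : ℂ)‖ < 1 := by
      have h4 := (h2.norm).eventually (gt_mem_nhds (by rw [norm_zero]; exact one_pos :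
        ‖(0 : ℂ)‖ < 1))
      exact h4
    obtain ⟨σ, hσ1, hσ2⟩ := (h3.and self_mem_nhdsWithin).exists
    have h5 : 1 < ((σ : ℂ)).re := by rw [Complex.ofReal_re]; exact hσ2
    rw [hf2 _ h5] at hσ1
    have h6 := LI_re_ge h01 (σ := σ) hσ2
    have h7 := Complex.abs_re_le_norm (LI η (σ : ℂ))
    have h8 := le_abs_self (LI η (σ : ℂ)).re
    linarith

end

/-! ### The Artin L-functions at `s = 1` -/

section
variable {K M : Type} [Field K] [NumberField K] [Field M] [NumberField M] [Algebra K M]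
  [IsGalois K M]

/-- the orders of the L-functions of the linear characters of the subgroups are `0` or `-1` -/
def Lin1 (M : Type) [Field M] [NumberField M] [Algebra K M] (ω : HeightOneSpectrum (𝓞 K) → ℂ) :
    Prop :=
  ∀ (H : Subgroup (M ≃ₐ[K] M)) (ψ : H →* ℂˣ),
    -1 ≤ meromorphicOrderAt (cont (twL M ω (induced H ψ))) 1 ∧
      meromorphicOrderAt (cont (twL M ω (induced H ψ))) 1 ≤ 0

variable {ω : HeightOneSpectrum (𝓞 K) → ℂ} {S : Set ℂ}

/-- the inverse L-functions at `s = 1` -/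
noncomputable def oneData (hω : ∀ v, ‖ω v‖ ≤ 1) (hf : LinC M ω S) (h1 : Lin1 M ω) :
    ArtinData (M ≃ₐ[K] M) 1 where
  L χ := (cont (twL M ω χ))⁻¹
  Lin H ψ := (cont (twL M ω (induced H ψ)))⁻¹
  mero χ hχ := by
    refine ⟨((cont_spec (lin_continues hω hf hχ)).1 1 (Set.mem_univ _)).inv, ?_⟩
    rw [meromorphicOrderAt_inv]
    have h2 := (cont_spec (lin_continues hω hf hχ)).order_ne_top
      (fun s _ => twL_ne_zero ω χ s) 1
    intro h3
    apply h2
    cases h4 : meromorphicOrderAt (cont (twL M ω χ)) 1 with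
    | top => rfl
    | coe a =>
      rw [h4] at h3
      exact absurd h3 (WithTop.coe_ne_top (a := -a))
  hecke H ψ := by
    rw [meromorphicOrderAt_inv]
    have h2 := (h1 H ψ).2
    cases h4 : meromorphicOrderAt (cont (twL M ω (induced H ψ))) 1 with
    | top =>
      rw [h4] at h2
      exact absurd h2 (by simp)
    | coe a =>
      rw [h4] at h2
      have h3 : a ≤ 0 := by exact_mod_cast h2
      have h5 : (0 : ℤ) ≤ -a := by omega
      exact_mod_cast h5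
  induce H ψ m hm := by
    obtain ⟨g, hg, -, hg2⟩ := hf H ψ
    have hp : Continues (fun s => ∏ χ ∈ irrF (M ≃ₐ[K] M), cont (twL M ω χ) s ^ m χ)
        (twL M ω (induced H ψ)) := by
      refine ⟨fun s hs => ?_, fun s hs => ?_⟩
      · exact MeromorphicAt.fun_prod fun χ hχ =>
          ((cont_spec (lin_continues hω hf (mem_irrF.1 hχ))).1 s hs).fun_pow _
      · rw [twL_induced_prod hω H ψ hm hs]
        exact Finset.prod_congr rfl fun χ hχ => by
          rw [(cont_spec (lin_continues hω hf (mem_irrF.1 hχ))).2 s hs]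
    have h1 := (cont_spec ⟨g, hg⟩).eventuallyEq hp (fun _ _ => rfl) 1
    filter_upwards [h1] with s hs
    rw [Pi.inv_apply, hs, finprod_mem_eq_finite_toFinset_prod _ (irr_finite (G := M ≃ₐ[K] M)),
      ← Finset.prod_inv_distrib]
    exact Finset.prod_congr rfl fun χ _ => by rw [Pi.inv_apply, inv_pow]

/-- **The L-functions of the nonlinear irreducible characters have order zero at `s = 1`.** -/
theorem order_one_zero (hω : ∀ v, ‖ω v‖ ≤ 1) (hf : LinC M ω S) (h1 : Lin1 M ω)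
    {χ : (M ≃ₐ[K] M) → ℂ} (hχ : χ ∈ Irr (M ≃ₐ[K] M)) (hd : χ 1 ≠ 1) :
    meromorphicOrderAt (cont (twL M ω χ)) 1 = 0 := by
  obtain ⟨h2, h3⟩ := h1 ⊥ 1
  obtain ⟨r, hr, hr1⟩ : ∃ r : ℕ, meromorphicOrderAt ((oneData hω hf h1).Lin ⊥ 1) 1 =
      (r : WithTop ℤ) ∧ r ≤ 1 := by
    change ∃ r : ℕ, meromorphicOrderAt ((cont (twL M ω (induced ⊥ 1)))⁻¹) 1 =
      (r : WithTop ℤ) ∧ r ≤ 1
    rw [meromorphicOrderAt_inv]
    cases h4 : meromorphicOrderAt (cont (twL M ω (induced (⊥ : Subgroup (M ≃ₐ[K] M)) 1))) 1 with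
    | top =>
      rw [h4] at h3
      exact absurd h3 (by simp)
    | coe a =>
      rw [h4] at h2 h3
      have h5 : a ≤ 0 := by exact_mod_cast h3
      have h6 : (-1 : ℤ) ≤ a := by
        have h8 : (((-1 : ℤ)) : WithTop ℤ) ≤ (a : WithTop ℤ) := h2
        exact WithTop.coe_le_coe.1 h8
      obtain ⟨b, hb⟩ := Int.eq_ofNat_of_zero_le (by omega : (0 : ℤ) ≤ -a)
      refine ⟨b, ?_, by omega⟩
      have h7 : ((-a : ℤ) : WithTop ℤ) = ((b : ℤ) : WithTop ℤ) := by rw [hb]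
      exact h7
  have h4 := (oneData hω hf h1).theta_one hr
  have h5 := irr_zero (oneData hω hf h1).isHeilbronn h4 hr1 hχ hd
  have h6 := (oneData hω hf h1).coe_ord hχ
  rw [h5] at h6
  have h7 : (0 : WithTop ℤ) = -meromorphicOrderAt (cont (twL M ω χ)) 1 := by
    rw [← meromorphicOrderAt_inv]
    exact h6
  cases h8 : meromorphicOrderAt (cont (twL M ω χ)) 1 with
  | top =>
    rw [h8] at h7
    exact absurd h7.symm (by simp)
  | coe a =>
    rw [h8] at h7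
    have h9 : (0 : ℤ) = -a := by exact_mod_cast h7
    have h10 : a = 0 := by omega
    rw [h10]
    rfl

end

end Pool.Agent.H511.Cm
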