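import Pool.Agent.H511.Cm.Glue

/-!
# The pieces of a potentially CM motive
-/

set_option autoImplicit false
set_option linter.unusedSectionVars false

namespace Pool.Agent.H511.Cm

open NumberField IsDedekindDomain Filter Topology Pool.Agent.H921R2.TatePole Pool.Agent.W353.NF
  Pool.Agent.Q5.BR Pool.Agent.H541R3.ART Pool.Agent.Q92.AR Pool.Agent.H302R2 Pool.Agent.H511.Ex
open Pool.Agent.N172.HS (nrmc IsHecke)

section
variable {K M : Type} [Field K] [NumberField K] [Field M] [NumberField M] [Algebra K M]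
  [IsGalois K M] {r : ℕ}

open scoped Classical in
/-- the inverse of the Euler factor -/
noncomputable def UW (ω : HeightOneSpectrum (𝓞 K) → ℂ)
    (ρ : Representation ℂ (M ≃ₐ[K] M) (Fin r → ℂ)) (w : HeightOneSpectrum (𝓞 K)) (s : ℂ) : ℂ :=
  if Unramified M w then ((ρ (frob M w)).charpoly.roots.map
    fun z => 1 - z * ω w * (nm w : ℂ) ^ (-s)).prod else 1

theorem nm_ne (w : HeightOneSpectrum (𝓞 K)) : (nm w : ℂ) ≠ 0 := by
  have h := Pool.Agent.Q280.AR.two_le_absNorm K w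
  have h2 : Ideal.absNorm w.asIdeal ≠ 0 := by omega
  exact_mod_cast h2

theorem UW_diff (ω : HeightOneSpectrum (𝓞 K) → ℂ)
    (ρ : Representation ℂ (M ≃ₐ[K] M) (Fin r → ℂ)) (w : HeightOneSpectrum (𝓞 K)) :
    Differentiable ℂ (UW ω ρ w) := by
  classical
  by_cases hw : Unramified M w
  · have h1 : UW ω ρ w = fun s => ((ρ (frob M w)).charpoly.roots.map
        fun z => 1 - z * ω w * (nm w : ℂ) ^ (-s)).prod := by
      funext s
      exact if_pos hw
    rw [h1]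
    have h2 : ∀ A : Multiset ℂ, Differentiable ℂ (fun s : ℂ => (A.map
        fun z => 1 - z * ω w * (nm w : ℂ) ^ (-s)).prod) := by
      intro A
      induction A using Multiset.induction_on with
      | empty => simp
      | cons a A ih =>
        simp only [Multiset.map_cons, Multiset.prod_cons]
        refine Differentiable.mul ?_ ih
        refine (differentiable_const _).sub ((differentiable_const _).mul ?_)
        intro s
        exact (differentiableAt_id.neg).const_cpow (Or.inl (nm_ne w))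
    exact h2 _
  · have h1 : UW ω ρ w = fun s => 1 := by
      funext s
      exact if_neg hw
    rw [h1]
    exact differentiable_const _

theorem UW_ne {ω : HeightOneSpectrum (𝓞 K) → ℂ} (hω : ∀ v, ‖ω v‖ ≤ 1)
    (ρ : Representation ℂ (M ≃ₐ[K] M) (Fin r → ℂ)) (w : HeightOneSpectrum (𝓞 K)) {s : ℂ}
    (hs : 0 < s.re) : UW ω ρ w s ≠ 0 := by
  classical
  unfold UW
  split_ifs with hw
  · refine Multiset.prod_ne_zero fun h0 => ?_
    obtain ⟨z, hz, h1⟩ := Multiset.mem_map.1 h0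
    have h2 : ‖z * ω w * (nm w : ℂ) ^ (-s)‖ < 1 := by
      refine norm_fac_lt ?_ w hs
      rw [norm_mul, norm_eig ρ _ hz, one_mul]
      exact hω w
    rw [← sub_eq_zero.1 h1, norm_one] at h2
    exact lt_irrefl _ h2
  · exact one_ne_zero

/-- **one piece** -/
theorem piece_fams {𝔣 : Ideal (𝓞 K)} {k : (K →+* ℂ) → ℤ} {ψ : Ideal (𝓞 K) →*₀ ℂ}
    (h : IsHecke 𝔣 k 0 ψ) {n : ℕ} (hn : Detects (M ≃ₐ[K] M) n)
    (ρ : Representation ℂ (M ≃ₐ[K] M) (Fin r → ℂ)) :
    ∃ (N : ℕ) (ι : Type) (J : Finset ι) (d Ni : ι → ℕ)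
      (L : ι → (q : ℕ) → DirichletCharacter ℂ q → ℂ → ℂ), N ≠ 0 ∧
      Fams J (n * Module.finrank ℚ K) N d Ni L ∧
      ∀ (q : ℕ) (ξ : DirichletCharacter ℂ q), 2 ≤ q → Nat.Coprime q N → ξ.IsPrimitive →
        ∃ g : ℂ → ℂ, MeromorphicOn g Set.univ ∧
          (∀ s : ℂ, 1 < s.re → HasProd (fun w => (UW (psW ψ ξ) ρ w s)⁻¹) (g s)) ∧
          ∀ s : ℂ, 0 < s.re → (∀ i ∈ J, L i q ξ s ≠ 0) → AnalyticAt ℂ g s ∧ g s ≠ 0 := by
  classical
  obtain ⟨N, ι, J, d, Ni, L, hN, hF, hT⟩ := tw_famsW h hn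
  refine ⟨N, ι, J, d, Ni, L, hN, hF, fun q ξ hq hqN hξ => ?_⟩
  have h1 := hT q ξ hq hqN hξ
  obtain ⟨g, g1, g2, g3⟩ := rep_reg (norm_psW (norm_le h) ξ) (fun χ hχ => (h1 χ hχ).1)
    (fun χ hχ => (h1 χ hχ).2.1) ρ
  refine ⟨g, g1, fun s hs => (g2 s hs).congr_fun fun w => ?_, fun s hs hi =>
    g3 s fun χ hχ => (h1 χ hχ).2.2 s hs hi⟩
  unfold UW
  split_ifs
  · rfl
  · exact inv_one

end

section
variable {κ : Type} [Fintype κ] {m N : ℕ} {ι : κ → Type} {J : (j : κ) → Finset (ι j)}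
  {mj Nj : κ → ℕ} {d Ni : (j : κ) → ι j → ℕ}
  {L : (j : κ) → ι j → (q : ℕ) → DirichletCharacter ℂ q → ℂ → ℂ}

/-- finitely many systems of families -/
theorem fams_sigma (h : ∀ j, Fams (J j) (mj j) (Nj j) (d j) (Ni j) (L j)) (hm : ∀ j, mj j ≤ m)
    (hN : ∀ j, Nj j ∣ N) :
    Fams (Finset.univ.sigma J) m N (fun x => d x.1 x.2) (fun x => Ni x.1 x.2)
      (fun x => L x.1 x.2) where
  dvd x hx := ((h x.1).dvd x.2 (Finset.mem_sigma.1 hx).2).trans (hN x.1)
  pos x hx := (h x.1).pos x.2 (Finset.mem_sigma.1 hx).2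
  le x hx := ((h x.1).le x.2 (Finset.mem_sigma.1 hx).2).trans (hm x.1)
  fm x hx := (h x.1).fm x.2 (Finset.mem_sigma.1 hx).2
  ne x hx q ξ hq hqN hξ s hs := (h x.1).ne x.2 (Finset.mem_sigma.1 hx).2 q ξ hq
    (Nat.Coprime.coprime_dvd_right (hN x.1) hqN) hξ s hs

end

end Pool.Agent.H511.Cm
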