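import Pool.Agent.H511.Cm.Rc
import Pool.Graph.R_pool_sql_team_seeded_63374d34.N784.HC.RayN

/-!
# Primitive Hecke characters of any type, and their twists by Dirichlet characters
-/

set_option autoImplicit false
set_option linter.unusedSectionVars false

namespace Pool.Agent.H511.Cm

open NumberField IsDedekindDomain Complex
open Pool.Agent.Y773 (LI TPos tw)
open Pool.Agent.Y767 (Mq Mq_cop Mq_ne_bot Mq_cancel ext_mon tpos_one tpos_mul tpos_of_mul)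
open Pool.Agent.Y773.IQ (ne_zero_of_cop cop_mono cop_one cop_congr cop_mul)
open Pool.Agent.N784.AD (exists_mem_one_tp T1 T1_one T1_tp T1_cop pi1 pi1_coe cop_ne_bot)
open Pool.Agent.N784.HC (ph ph_coe_mul ph_ne coe_ne phT phT_coe CTyp fty kp)

section
variable {K : Type} [Field K] [NumberField K] {n : (K →+* ℂ) → ℕ}

/-- the key step for the conductor one -/
theorem key_top {𝔮 : Ideal (𝓞 K)} (hbot : 𝔮 ≠ ⊥) (htop : 𝔮 ≠ ⊤) {𝔞 𝔟 : Ideal (𝓞 K)}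
    (h𝔞 : IsCoprime 𝔞 𝔮) (h𝔟 : IsCoprime 𝔟 𝔮) {x y : 𝓞 K} (hx0 : x ≠ 0)
    (hxp : TPos K x) (hyp : TPos K y) (hab : 𝔞 * Ideal.span {x} = 𝔟 * Ideal.span {y}) :
    ∃ x' y' : 𝓞 K, x' - 1 ∈ 𝔮 ∧ TPos K x' ∧ IsCoprime (Ideal.span {y'}) 𝔮 ∧
      TPos K y' ∧ 𝔞 * Ideal.span {x'} = 𝔟 * Ideal.span {y'} ∧ y' * x = x' * y := by
  obtain ⟨x', 𝔠, hx1, hxp', hx2, hx3⟩ := exists_mem_one_tp h𝔟 (cop_ne_bot htop h𝔟) hbot
  have h2 : 𝔞 * 𝔠 * Ideal.span {x} = Ideal.span {x' * y} := by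
    rw [← Ideal.span_singleton_mul_span_singleton, hx2, mul_right_comm, hab]
    ring
  have h3 : x' * y ∈ Ideal.span {x} := by
    have h4 : Ideal.span {x' * y} ≤ Ideal.span {x} := by
      rw [← h2]; exact Ideal.mul_le_right
    exact h4 (Ideal.mem_span_singleton_self _)
  obtain ⟨y', hy'⟩ := Ideal.mem_span_singleton'.mp h3
  have h5 : 𝔞 * 𝔠 = Ideal.span {y'} := by
    apply mul_right_cancel₀ (b := Ideal.span {x})
    · rw [Ne, Ideal.zero_eq_bot, Ideal.span_singleton_eq_bot]; exact hx0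
    · rw [h2, Ideal.span_singleton_mul_span_singleton, hy']
  refine ⟨x', y', hx1, hxp', ?_, ?_, ?_, hy'⟩
  · rw [← h5]; exact IsCoprime.mul_left h𝔞 hx3
  · apply tpos_of_mul hxp
    rw [mul_comm, hy']
    exact tpos_mul hxp' hyp
  · rw [hx2, ← h5]; ring

/-- the nonzero ideals -/
def NI (K : Type) [Field K] [NumberField K] : Submonoid (Ideal (𝓞 K)) where
  carrier := {𝔞 | 𝔞 ≠ ⊥}
  mul_mem' hx hy := mul_ne_zero hx hy
  one_mem' := one_ne_zero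

instance : IsCancelMul (NI K) where
  mul_left_cancel a b c h := by
    apply Subtype.ext
    have h1 := congrArg Subtype.val h
    exact mul_left_cancel₀ a.2 h1
  mul_right_cancel a b c h := by
    apply Subtype.ext
    have h1 := congrArg Subtype.val h
    exact mul_right_cancel₀ a.2 h1

/-- the nonzero totally positive integers -/
def TI (K : Type) [Field K] [NumberField K] : Submonoid (𝓞 K) where
  carrier := {x | x ≠ 0 ∧ TPos K x}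
  mul_mem' hx hy := ⟨mul_ne_zero hx.1 hy.1, tpos_mul hx.2 hy.2⟩
  one_mem' := ⟨one_ne_zero, tpos_one⟩

theorem ph_one (n : (K →+* ℂ) → ℕ) : ph n ((1 : 𝓞 K) : K) = 1 := by
  have h1 : ((1 : 𝓞 K) : K) = 1 := map_one (algebraMap (𝓞 K) K)
  rw [h1]
  unfold ph
  simp

/-- `𝔞 (x)` -/
def piT {𝔮 : Ideal (𝓞 K)} (htop : 𝔮 ≠ ⊤) : Mq 𝔮 × TI K →* NI K where
  toFun p := ⟨(p.1 : Ideal (𝓞 K)) * Ideal.span {(p.2 : 𝓞 K)},
    mul_ne_zero (Mq_ne_bot htop p.1) (by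
      rw [Ne, Ideal.zero_eq_bot, Ideal.span_singleton_eq_bot]
      exact p.2.2.1)⟩
  map_one' := by
    apply Subtype.ext
    change (1 : Ideal (𝓞 K)) * Ideal.span {(1 : 𝓞 K)} = 1
    rw [Ideal.span_singleton_one, ← Ideal.one_eq_top, mul_one]
  map_mul' p p' := by
    apply Subtype.ext
    change ((p.1 : Ideal (𝓞 K)) * p'.1) * Ideal.span {(p.2 : 𝓞 K) * (p'.2 : 𝓞 K)} =
      ((p.1 : Ideal (𝓞 K)) * Ideal.span {(p.2 : 𝓞 K)}) *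
        ((p'.1 : Ideal (𝓞 K)) * Ideal.span {(p'.2 : 𝓞 K)})
    rw [← Ideal.span_singleton_mul_span_singleton]
    ring

/-- the archimedean part on the totally positive integers -/
noncomputable def phI (n : (K →+* ℂ) → ℕ) : TI K →* ℂˣ where
  toFun x := Units.mk0 (ph n ((x : 𝓞 K) : K)) (ph_ne n (coe_ne x.2.1))
  map_one' := by
    ext
    rw [Units.val_mk0, Units.val_one]
    exact ph_one n
  map_mul' x y := by
    ext
    rw [Units.val_mk0, Units.val_mul, Units.val_mk0, Units.val_mk0, Submonoid.coe_mul, ph_coe_mul]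

/-- **the characters of conductor one** -/
theorem exists_top {𝔮 : Ideal (𝓞 K)} (hbot : 𝔮 ≠ ⊥) (htop : 𝔮 ≠ ⊤) (F : Mq 𝔮 →* ℂˣ)
    (hF : ∀ (x : 𝓞 K) (hx : IsCoprime (Ideal.span {x}) 𝔮), TPos K x →
      ((F ⟨Ideal.span {x}, hx⟩ : ℂˣ) : ℂ) = ph n (x : K)) :
    ∃ ψ : Ideal (𝓞 K) →*₀ ℂ, Pool.Agent.N784.HC.IsHecke K ⊤ n ψ ∧
      ∀ x : Mq 𝔮, ψ (x : Ideal (𝓞 K)) = ((F x : ℂˣ) : ℂ) := by
  classical
  obtain ⟨F', hF'⟩ := ext_mon (piT htop)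
    ((F.comp (MonoidHom.fst _ _)) * ((phI n).comp (MonoidHom.snd _ _))) (by
    rintro ⟨𝔞, x⟩ ⟨𝔟, y⟩ hab
    have hab' : (𝔞 : Ideal (𝓞 K)) * Ideal.span {(x : 𝓞 K)} =
        (𝔟 : Ideal (𝓞 K)) * Ideal.span {(y : 𝓞 K)} := congrArg Subtype.val hab
    obtain ⟨x', y', hx1, hxp, hy1, hyp, hxy, he⟩ := key_top hbot htop (Mq_cop 𝔞)
      (Mq_cop 𝔟) x.2.1 x.2.2 y.2.2 hab'
    have h6 := hF y' hy1 hyp
    have h7 := hF x' (cop_one hx1) hxp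
    have h8 : 𝔞 * ⟨Ideal.span {x'}, cop_one hx1⟩ = 𝔟 * ⟨Ideal.span {y'}, hy1⟩ :=
      Subtype.ext hxy
    have h9 := congrArg (fun z => ((F z : ℂˣ) : ℂ)) h8
    simp only [map_mul, Units.val_mul] at h9
    rw [h7, h6] at h9
    ext
    change ((F 𝔞 : ℂˣ) : ℂ) * ph n ((x : 𝓞 K) : K) = ((F 𝔟 : ℂˣ) : ℂ) * ph n ((y : 𝓞 K) : K)
    have hx'0 : x' ≠ 0 := ne_zero_of_cop htop (cop_one hx1)
    have h10 := congrArg (fun z : 𝓞 K => ph n (z : K)) he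
    simp only [ph_coe_mul] at h10
    refine mul_right_cancel₀ (ph_ne n (coe_ne hx'0)) ?_
    calc ((F 𝔞 : ℂˣ) : ℂ) * ph n ((x : 𝓞 K) : K) * ph n (x' : K) =
        (((F 𝔞 : ℂˣ) : ℂ) * ph n (x' : K)) * ph n ((x : 𝓞 K) : K) := by ring
      _ = ((F 𝔟 : ℂˣ) : ℂ) * (ph n (y' : K) * ph n ((x : 𝓞 K) : K)) := by rw [h9]; ring
      _ = _ := by rw [h10]; ring)
  have hpos : ∀ (𝔞 : Mq 𝔮) (x : TI K), ∀ h, ((F' ⟨(𝔞 : Ideal (𝓞 K)) *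
      Ideal.span {(x : 𝓞 K)}, h⟩ : ℂˣ) : ℂ) = ((F 𝔞 : ℂˣ) : ℂ) * ph n ((x : 𝓞 K) : K) := by
    intro 𝔞 x h
    have h1 := hF' (𝔞, x)
    have h2 := congrArg (fun z : ℂˣ => (z : ℂ)) h1
    exact h2
  let ψ : Ideal (𝓞 K) →*₀ ℂ :=
    { toFun := fun 𝔞 => if h : 𝔞 ≠ ⊥ then ((F' ⟨𝔞, h⟩ : ℂˣ) : ℂ) else 0
      map_zero' := by
        rw [dif_neg]
        rw [not_not]
        rfl
      map_one' := by
        have h1 : (1 : Ideal (𝓞 K)) ≠ ⊥ := one_ne_zero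
        rw [dif_pos h1]
        have h2 : (⟨1, h1⟩ : NI K) = 1 := rfl
        rw [h2, map_one, Units.val_one]
      map_mul' := fun 𝔞 𝔟 => by
        by_cases h1 : 𝔞 = ⊥
        · rw [dif_neg (not_not.2 h1), zero_mul, dif_neg]
          rw [not_not, h1]
          exact zero_mul 𝔟
        by_cases h2 : 𝔟 = ⊥
        · rw [dif_neg (not_not.2 h2), mul_zero, dif_neg]
          rw [not_not, h2]
          exact mul_zero 𝔞
        have h3 : 𝔞 * 𝔟 ≠ ⊥ := mul_ne_zero h1 h2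
        rw [dif_pos h1, dif_pos h2, dif_pos h3, ← Units.val_mul, ← map_mul]
        rfl }
  have hψ : ∀ 𝔞 : Ideal (𝓞 K), ∀ h : 𝔞 ≠ ⊥, ψ 𝔞 = ((F' ⟨𝔞, h⟩ : ℂˣ) : ℂ) :=
    fun 𝔞 h => dif_pos h
  refine ⟨ψ, ⟨?_, ?_, ?_, ?_⟩, ?_⟩
  · exact fun h => absurd (h : (⊤ : Ideal (𝓞 K)) = ⊥) top_ne_bot
  · intro 𝔞 h0
    rw [hψ 𝔞 h0]
    refine ⟨fun _ => ?_, fun _ => Units.ne_zero _⟩
    rw [Ideal.isCoprime_iff_sup_eq]
    exact sup_top_eq 𝔞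
  · intro x hx0 _ hxp
    have h0 : Ideal.span {x} ≠ ⊥ := by rwa [Ne, Ideal.span_singleton_eq_bot]
    rw [hψ _ h0]
    have h1 : ((1 : Mq 𝔮) : Ideal (𝓞 K)) * Ideal.span {x} ≠ ⊥ := by
      rw [Submonoid.coe_one, one_mul]
      exact h0
    have h2 := hpos 1 ⟨x, hx0, hxp⟩ h1
    rw [map_one, Units.val_one, one_mul] at h2
    rw [← h2]
    have h3 : (⟨Ideal.span {x}, h0⟩ : NI K) = ⟨((1 : Mq 𝔮) : Ideal (𝓞 K)) * Ideal.span {x}, h1⟩ := by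
      apply Subtype.ext
      change Ideal.span {x} = (1 : Ideal (𝓞 K)) * Ideal.span {x}
      rw [one_mul]
    rw [h3]
  · intro 𝔤 hg hne
    exfalso
    apply hne
    have h1 := Ideal.dvd_iff_le.1 hg
    exact top_le_iff.1 h1
  · intro x
    have h0 := Mq_ne_bot htop x
    rw [hψ _ h0]
    have h1 : (x : Ideal (𝓞 K)) * Ideal.span {((1 : TI K) : 𝓞 K)} ≠ ⊥ := by
      rw [Submonoid.coe_one, Ideal.span_singleton_one, ← Ideal.one_eq_top, mul_one]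
      exact h0
    have h2 := hpos x 1 h1
    have h4 : ph n (((1 : TI K) : 𝓞 K) : K) = 1 := ph_one n
    rw [h4, mul_one] at h2
    rw [← h2]
    have h3 : (⟨(x : Ideal (𝓞 K)), h0⟩ : NI K) =
        ⟨(x : Ideal (𝓞 K)) * Ideal.span {((1 : TI K) : 𝓞 K)}, h1⟩ := by
      apply Subtype.ext
      change (x : Ideal (𝓞 K)) = (x : Ideal (𝓞 K)) * Ideal.span {((1 : TI K) : 𝓞 K)}
      rw [Submonoid.coe_one, Ideal.span_singleton_one, ← Ideal.one_eq_top, mul_one]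
    rw [h3]

/-- **every Hecke character is induced by a primitive one** -/
theorem exists_primH {𝔪 : Ideal (𝓞 K)} {k : (K →+* ℂ) → ℤ} {ψ : Ideal (𝓞 K) →*₀ ℂ}
    (h : Pool.Agent.N172.HS.IsHecke 𝔪 k 0 ψ) (htop : 𝔪 ≠ ⊤) :
    ∃ (𝔣 : Ideal (𝓞 K)) (ψ' : Ideal (𝓞 K) →*₀ ℂ),
      Pool.Agent.N784.HC.IsHecke K 𝔣 (nt k) ψ' ∧ ∀ 𝔞, IsCoprime 𝔞 𝔪 → ψ' 𝔞 = ψ 𝔞 := by
  have hne : ∀ y : Mq 𝔪, ψ (y : Ideal (𝓞 K)) ≠ 0 := fun y =>
    (h.supp _ (Mq_ne_bot htop y)).mpr (Mq_cop y)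
  set F := Pool.Agent.Y773.IQ.toM' ψ hne with hFdef
  have hFv : ∀ y : Mq 𝔪, ((F y : ℂˣ) : ℂ) = ψ (y : Ideal (𝓞 K)) := fun y => rfl
  have hF : ∀ x : T1 htop, F (pi1 htop x) = phT (nt k) htop x := by
    intro x
    ext
    rw [hFv, pi1_coe, phT_coe]
    exact ray_ph h (ne_zero_of_cop htop (T1_cop x)) (T1_one x) (T1_tp x)
  rcases Pool.Agent.N784.HC.exists_prim h.ne_bot htop F hF with h1 | ⟨𝔣, ψ', -, -, h2, h3⟩
  · obtain ⟨ψ', h2, h3⟩ := exists_top (n := nt k) h.ne_bot htop F h1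
    exact ⟨⊤, ψ', h2, fun 𝔞 h𝔞 => by rw [h3 ⟨𝔞, h𝔞⟩, hFv]⟩
  · exact ⟨𝔣, ψ', h2, fun 𝔞 h𝔞 => by rw [h3 ⟨𝔞, h𝔞⟩, hFv]⟩

open Classical in
/-- the trivial character -/
noncomputable def triv (K : Type) [Field K] [NumberField K] : Ideal (𝓞 K) →*₀ ℂ where
  toFun 𝔞 := if 𝔞 = ⊥ then 0 else 1
  map_zero' := if_pos rfl
  map_one' := if_neg one_ne_zero
  map_mul' 𝔞 𝔟 := by
    by_cases h1 : 𝔞 = ⊥
    · rw [if_pos h1, zero_mul, if_pos]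
      rw [h1]
      exact zero_mul 𝔟
    by_cases h2 : 𝔟 = ⊥
    · rw [if_pos h2, mul_zero, if_pos]
      rw [h2]
      exact mul_zero 𝔞
    have h3 : ¬ (𝔞 * 𝔟 = ⊥) := mul_ne_zero h1 h2
    rw [if_neg h1, if_neg h2, if_neg h3, mul_one]

theorem triv_prim : Pool.Agent.Y773.G.IsPrimChar K ⊤ (triv K) where
  ne_bot := fun h => absurd (h : (⊤ : Ideal (𝓞 K)) = ⊥) top_ne_bot
  supp 𝔞 h0 := by
    have h1 : triv K 𝔞 = 1 := if_neg h0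
    rw [h1]
    refine ⟨fun _ => ?_, fun _ => one_ne_zero⟩
    rw [Ideal.isCoprime_iff_sup_eq]
    exact sup_top_eq 𝔞
  ray x hx0 _ _ := if_neg (by rwa [Ideal.span_singleton_eq_bot])
  prim 𝔤 hg hne := absurd (top_le_iff.1 (Ideal.dvd_iff_le.1 hg)) hne

/-- **the twist of a primitive Hecke character by a primitive Dirichlet character** -/
theorem tw_primH {𝔣 : Ideal (𝓞 K)} {ψ : Ideal (𝓞 K) →*₀ ℂ}
    (hψ : Pool.Agent.N784.HC.IsHecke K 𝔣 n ψ)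
    {q : ℕ} {χ : DirichletCharacter ℂ q} (hq : 2 ≤ q)
    (hqN : Nat.Coprime q (Ideal.absNorm 𝔣 * (discr K).natAbs)) (hχ : χ.IsPrimitive) :
    Pool.Agent.N784.HC.IsHecke K (𝔣 * Ideal.span {(q : 𝓞 K)}) n (tw ψ χ) := by
  have h1 : Pool.Agent.Y773.G.IsPrimChar K (⊤ * Ideal.span {(q : 𝓞 K)}) (tw (triv K) χ) := by
    refine Pool.Agent.N784.TD.tw_prim triv_prim hq ?_ hχ
    rw [Ideal.absNorm_top, one_mul]
    exact Nat.Coprime.coprime_dvd_right (dvd_mul_left _ _) hqN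
  have hcop : IsCoprime 𝔣 (⊤ * Ideal.span {(q : 𝓞 K)}) := by
    rw [← Ideal.one_eq_top, one_mul]
    have h2 : Nat.Coprime (Ideal.absNorm 𝔣) q :=
      (Nat.Coprime.coprime_dvd_right (dvd_mul_right _ _) hqN).symm
    obtain ⟨a, b, hab⟩ := Int.isCoprime_iff_gcd_eq_one.2 (by
      simpa [Int.gcd] using h2 : Int.gcd (Ideal.absNorm 𝔣 : ℤ) (q : ℤ) = 1)
    rw [Ideal.isCoprime_iff_exists]
    refine ⟨(a : 𝓞 K) * (Ideal.absNorm 𝔣 : 𝓞 K), 𝔣.mul_mem_left _ (Ideal.absNorm_mem 𝔣),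
      (b : 𝓞 K) * (q : 𝓞 K), Ideal.mul_mem_left _ _ (Ideal.mem_span_singleton_self _), ?_⟩
    exact_mod_cast hab
  have hgt : (⊤ * Ideal.span {(q : 𝓞 K)} : Ideal (𝓞 K)) ≠ ⊤ :=
    Pool.Agent.Y773.mul_span_ne_top hq
  have h3 := hψ.mul h1 hcop hgt
  have e1 : Pool.Agent.N784.HC.mulc ψ (tw (triv K) χ) = tw ψ χ := by
    ext 𝔞
    change ψ 𝔞 * (triv K 𝔞 * χ ((Ideal.absNorm 𝔞 : ℕ) : ZMod q)) =
      ψ 𝔞 * χ ((Ideal.absNorm 𝔞 : ℕ) : ZMod q)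
    by_cases h0 : 𝔞 = ⊥
    · have h4 : ψ 𝔞 = 0 := by
        rw [h0]
        exact map_zero ψ
      rw [h4, zero_mul, zero_mul]
    · have h4 : triv K 𝔞 = 1 := if_neg h0
      rw [h4, one_mul]
  have e2 : 𝔣 * (⊤ * Ideal.span {(q : 𝓞 K)}) = 𝔣 * Ideal.span {(q : 𝓞 K)} := by
    rw [← Ideal.one_eq_top, one_mul]
  rw [e1, e2] at h3
  exact h3

end

end Pool.Agent.H511.Cm
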