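import Pool.Agent.H511.Cm.Hk
import Pool.Agent.H511.Ex.Tw2

/-!
# The twisted L-functions of the linear characters are Hecke L-functions
-/

set_option autoImplicit false
set_option linter.unusedSectionVars false

namespace Pool.Agent.H511.Cm

open NumberField IsDedekindDomain Filter Topology Pool.Agent.H921R2.TatePole Pool.Agent.W353.NF
  Pool.Agent.Q5.BR Pool.Agent.H541R3.ART Pool.Agent.Q92.AR Pool.Agent.H511.Ex
open Pool.Agent.Q92.RT (induced induced_conj induced_pair class_expand)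
open Pool.Agent.Q84.AR (psi psi_apply dv dv_span dv_prime cop_v)
open Pool.Agent.Y773 (LI)
open Pool.Agent.N172.HS (nrmc IsHecke)

section
variable {F M : Type} [Field F] [NumberField F] [Field M] [NumberField M] [Algebra F M]
  [IsGalois F M]

theorem norm_art (l : (M ≃ₐ[F] M) →* ℂˣ) (D : Dv F) : ‖(((art l D).toMul : ℂˣ) : ℂ)‖ = 1 := by
  induction D using Finsupp.induction_linear with
  | zero => simp
  | add f g hf hg =>
    rw [map_add, toMul_add, Units.val_mul, norm_mul, hf, hg, one_mul]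
  | single v n =>
    rw [art_single, toMul_zsmul, Units.val_zpow_eq_zpow_val, norm_zpow]
    have h1 : ‖(((Additive.ofMul (l (frob M v))).toMul : ℂˣ) : ℂ)‖ = 1 := norm_char l _
    rw [h1, one_zpow]

/-- the ray class character of an Artin character -/
theorem art_hecke (l : (M ≃ₐ[F] M) →* ℂˣ) {N : ℕ} (hN : N ≠ 0)
    (hray : ∀ x ∈ Ray F N, art l (prin x) = 0) :
    IsHecke (Ideal.span {((2 * N : ℕ) : 𝓞 F)}) 0 0 (psi (2 * N) (art l)) := by
  classical
  have h2N : ((2 * N : ℕ) : 𝓞 F) ≠ 0 := by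
    have : (2 * N : ℕ) ≠ 0 := by omega
    exact_mod_cast this
  refine ⟨?_, ?_, ?_, ?_⟩
  · rwa [Ne, Ideal.span_singleton_eq_bot]
  · intro 𝔞 h0
    rw [psi_apply]
    constructor
    · intro h
      by_contra h1
      exact h (if_neg fun h2 => h1 h2.2)
    · intro h
      rw [if_pos ⟨h0, h⟩]
      exact Units.ne_zero _
  · intro 𝔞 h
    rw [psi_apply] at h ⊢
    by_cases h1 : 𝔞 ≠ ⊥ ∧ IsCoprime 𝔞 (Ideal.span {((2 * N : ℕ) : 𝓞 F)})
    · rw [if_pos h1]
      exact norm_art l _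
    · exact absurd (if_neg h1) h
  · intro x hx0 hx1 hxp
    have hx0F : (x : F) ≠ 0 := by
      intro h
      exact hx0 (by exact_mod_cast h)
    have h1 : IsCoprime (Ideal.span {x}) (Ideal.span {((2 * N : ℕ) : 𝓞 F)}) := by
      rw [Ideal.isCoprime_iff_exists]
      refine ⟨x, Ideal.mem_span_singleton_self _, -(x - 1), Ideal.neg_mem_iff _ |>.2 hx1, by ring⟩
    rw [psi_apply, if_pos ⟨by rwa [Ne, Ideal.span_singleton_eq_bot], h1⟩,
      dv_span (Units.mk0 (x : F) hx0F) rfl, hray, Pool.Agent.N172.HS.arch_zero]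
    · rfl
    · refine ⟨?_, ?_⟩
      · intro v hv
        rw [Units.val_mk0]
        obtain ⟨c, hc⟩ := Ideal.mem_span_singleton.1 hx1
        have h2 : (x : F) - 1 = (N : F) * algebraMap (𝓞 F) F (((2 : ℕ) : 𝓞 F) * c) := by
          have := congrArg (algebraMap (𝓞 F) F) hc
          rw [map_sub, map_one, map_mul, map_natCast] at this
          rw [this, map_mul, map_natCast, Nat.cast_mul]
          ring
        rw [h2, map_mul]
        calc v.valuation F (N : F) * v.valuation F (algebraMap (𝓞 F) F (((2 : ℕ) : 𝓞 F) * c)) ≤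
            v.valuation F (N : F) * 1 := mul_le_mul' le_rfl (v.valuation_le_one _)
          _ = _ := mul_one _
      · rw [Units.val_mk0]
        exact hxp

end

section
variable {K F : Type} [Field K] [NumberField K] [Field F] [NumberField F] [Algebra K F]

/-- the norm of a prime -/
theorem relNorm_prime (w : HeightOneSpectrum (𝓞 F)) :
    Ideal.relNorm (𝓞 K) w.asIdeal = (w.under (𝓞 K)).asIdeal ^ rdeg K w := by
  have hm : w.asIdeal.IsMaximal := w.isMaximal
  have hp : w.asIdeal.IsPrime := w.isPrime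
  obtain ⟨s, hs⟩ := Ideal.exists_relNorm_eq_pow_of_isPrime w.asIdeal (w.asIdeal.under (𝓞 K))
  have h1 : (w.under (𝓞 K)).asIdeal = w.asIdeal.under (𝓞 K) := rfl
  rw [h1, hs]
  congr 1
  have h2 : Ideal.absNorm (Ideal.relNorm (𝓞 K) w.asIdeal) = Ideal.absNorm w.asIdeal := by
    rw [Ideal.absNorm_relNorm]
  rw [hs, map_pow] at h2
  have h3 := absNorm_rdeg (K := K) w
  rw [h3, h1] at h2
  exact Nat.pow_right_injective
    (Pool.Agent.Q280.AR.two_le_absNorm K (w.under (𝓞 K))) h2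

theorem nrmc_prime (ψ : Ideal (𝓞 K) →*₀ ℂ) (w : HeightOneSpectrum (𝓞 F)) :
    nrmc (E := F) ψ w.asIdeal = upW K (fun v => ψ v.asIdeal) w := by
  change ψ (Ideal.relNorm (𝓞 K) w.asIdeal) = ψ (w.under (𝓞 K)).asIdeal ^ rdeg K w
  rw [relNorm_prime, map_pow]

end

/-- the primes containing an ideal -/
theorem above_finite {F : Type} [Field F] [NumberField F] {𝔪 : Ideal (𝓞 F)} (h : 𝔪 ≠ ⊥) :
    {v : HeightOneSpectrum (𝓞 F) | 𝔪 ≤ v.asIdeal}.Finite := by
  have hN : Ideal.absNorm 𝔪 ≠ 0 := by rwa [Ne, Ideal.absNorm_eq_zero_iff]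
  refine (mem_finite (F := F) hN).subset fun v hv => ?_
  exact hv (Ideal.absNorm_mem 𝔪)

section
variable {K F M : Type} [Field K] [NumberField K] [Field F] [NumberField F] [Field M] [NumberField M]
  [Algebra K F] [Algebra K M] [Algebra F M] [IsScalarTower K F M] [IsGalois K M] [IsGalois F M]

theorem nt_comp {k : (K →+* ℂ) → ℤ} (F : Type) [Field F] [NumberField F] [Algebra K F] :
    NT (fun ρ : F →+* ℂ => k (ρ.comp (algebraMap K F))) ↔ NT k := by
  constructor
  · rintro ⟨ρ, hρ⟩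
    exact ⟨ρ.comp (algebraMap K F), hρ⟩
  · rintro ⟨φ, hφ⟩
    let _ : Algebra K ℂ := φ.toAlgebra
    obtain ⟨τ⟩ : Nonempty (F →ₐ[K] ℂ) := ⟨IsAlgClosed.lift⟩
    have h1 : (τ : F →+* ℂ).comp (algebraMap K F) = φ := RingHom.ext fun y => τ.commutes y
    refine ⟨(τ : F →+* ℂ), ?_⟩
    have h2 : (Pool.Agent.Y773.G.cj (τ : F →+* ℂ)).comp (algebraMap K F) =
        Pool.Agent.Y773.G.cj φ := by
      rw [← h1]
      rfl
    beta_reduce
    rw [h2, h1]
    exact hφ

/-- **The twisted L-function of a linear character** is a Hecke L-function up to finitely many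
Euler factors. -/
theorem lin_hecke {𝔣 : Ideal (𝓞 K)} {k : (K →+* ℂ) → ℤ} {ψ : Ideal (𝓞 K) →*₀ ℂ}
    (h : IsHecke 𝔣 k 0 ψ) (lam : fixer K F M →* ℂˣ) :
    ∃ (𝔪 : Ideal (𝓞 F)) (η : Ideal (𝓞 F) →*₀ ℂ), 𝔪 ≠ ⊤ ∧
      IsHecke 𝔪 (fun ρ : F →+* ℂ => k (ρ.comp (algebraMap K F))) 0 η ∧
      Cmp (twL M (fun v => ψ v.asIdeal) (induced (fixer K F M) lam)) (LI η) ∧
      ∀ w : HeightOneSpectrum (𝓞 F), ¬ 𝔪 ≤ w.asIdeal →
        η w.asIdeal = ((lam (resF K F M (frob M w)) : ℂˣ) : ℂ) *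
          upW K (fun v => ψ v.asIdeal) w := by
  classical
  set l : (M ≃ₐ[F] M) →* ℂˣ := lam.comp (resF K F M) with hl
  obtain ⟨N, hN, hRam, hray⟩ := recip F M l
  have h1 := art_hecke l hN hray
  obtain ⟨𝔪₀, h𝔪₀⟩ := IsHecke.nrmc (E := F) h
  have h2 := h1.mul h𝔪₀
  set η : Ideal (𝓞 F) →*₀ ℂ := Pool.Agent.N172.HS.mulc (psi (2 * N) (art l)) (nrmc ψ) with hη
  set 𝔪 := Ideal.span {((2 * N : ℕ) : 𝓞 F)} * 𝔪₀ with h𝔪
  have hne : 𝔪 ≠ ⊤ := by
    intro htop
    have h3 : Ideal.span {((2 * N : ℕ) : 𝓞 F)} = ⊤ := by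
      rw [eq_top_iff, ← htop]
      exact Ideal.mul_le_left
    have h4 := Pool.Agent.Y773.absNorm_span_nat (K := F) (2 * N)
    rw [h3, Ideal.absNorm_top] at h4
    have h8 : 0 < Module.finrank ℚ F := Module.finrank_pos
    have h5 : 1 < (2 * N) ^ Module.finrank ℚ F := Nat.one_lt_pow h8.ne' (by omega)
    omega
  have h3 : IsHecke 𝔪 (fun ρ : F →+* ℂ => k (ρ.comp (algebraMap K F))) 0 η := by
    have e1 : (0 : (F →+* ℂ) → ℤ) + (fun ρ : F →+* ℂ => k (ρ.comp (algebraMap K F))) =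
        fun ρ : F →+* ℂ => k (ρ.comp (algebraMap K F)) := zero_add _
    have e2 : (0 : (F →+* ℂ) → ℝ) + (fun ρ : F →+* ℂ =>
        (0 : (K →+* ℂ) → ℝ) (ρ.comp (algebraMap K F))) = 0 := by
      funext ρ
      simp
    rw [e1, e2] at h2
    exact h2
  have hval : ∀ w : HeightOneSpectrum (𝓞 F), ¬ 𝔪 ≤ w.asIdeal →
      η w.asIdeal = ((lam (resF K F M (frob M w)) : ℂˣ) : ℂ) *
        upW K (fun v => ψ v.asIdeal) w := by
    intro w hw
    have hw2 : ((2 * N : ℕ) : 𝓞 F) ∉ w.asIdeal := by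
      intro h4
      apply hw
      refine le_trans Ideal.mul_le_left ?_
      rwa [Ideal.span_singleton_le_iff_mem]
    rw [hη, Pool.Agent.N172.HS.mulc_apply, nrmc_prime, psi_apply,
      if_pos ⟨w.ne_bot, (cop_v (2 * N) w).2 hw2⟩, dv_prime, art_single, one_smul]
    rfl
  refine ⟨𝔪, η, hne, h3, ?_, hval⟩
  have hω : ∀ v : HeightOneSpectrum (𝓞 K), ‖ψ v.asIdeal‖ ≤ 1 := fun v => norm_le h _
  have hηn : ∀ 𝔞, ‖η 𝔞‖ ≤ 1 := norm_le h3
  have hB : ∀ w : HeightOneSpectrum (𝓞 F), ‖((l (frob M w) : ℂˣ) : ℂ) *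
      upW K (fun v => ψ v.asIdeal) w‖ ≤ 1 := by
    intro w
    rw [norm_mul, norm_char l, one_mul]
    exact norm_upW hω w
  have c1 : Cmp (twL M (fun v => ψ v.asIdeal) (induced (fixer K F M) lam))
      (LP {w : HeightOneSpectrum (𝓞 F) | Unramified M (w.under (𝓞 K))}
        (fun w => ((l (frob M w) : ℂˣ) : ℂ) * upW K (fun v => ψ v.asIdeal) w)) := by
    refine Cmp.of_eq fun s hs => ?_
    rw [twL_induced hω lam l (fun y hy => rfl) hs]
    rfl
  have c2 : Cmp (LP {w : HeightOneSpectrum (𝓞 F) | Unramified M (w.under (𝓞 K))}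
        (fun w => ((l (frob M w) : ℂˣ) : ℂ) * upW K (fun v => ψ v.asIdeal) w))
      (LP {w : HeightOneSpectrum (𝓞 F) | ¬ 𝔪 ≤ w.asIdeal} (fun v => η v.asIdeal)) := by
    refine LP_compare ?_ ?_ hB (fun v => hηn _) ?_
    · refine (above_finite h3.ne_bot).subset ?_
      rintro w ⟨-, hw⟩
      exact not_not.1 hw
    · refine (ramified_above_finite (K := K) (F := F) (M := M)).subset ?_
      rintro w ⟨-, hw⟩
      exact hw
    · rintro v ⟨-, hv⟩
      exact (hval v hv).symm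
  have c3 : Cmp (LP {w : HeightOneSpectrum (𝓞 F) | ¬ 𝔪 ≤ w.asIdeal} (fun v => η v.asIdeal))
      (LP (Set.univ : Set (HeightOneSpectrum (𝓞 F))) (fun v => η v.asIdeal)) := by
    refine LP_compare ?_ ?_ (fun v => hηn _) (fun v => hηn _) (fun v _ => rfl)
    · refine Set.Finite.subset Set.finite_empty ?_
      rintro w ⟨-, hw⟩
      exact (hw (Set.mem_univ _)).elim
    · refine (above_finite h3.ne_bot).subset ?_
      rintro w ⟨-, hw⟩
      exact not_not.1 hw
  exact c1.trans (c2.trans (c3.trans (Cmp.of_eq fun s hs => (LI_eq_LP hηn hs).symm)))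

end

section
variable {K M : Type} [Field K] [NumberField K] [Field M] [NumberField M] [Algebra K M]
  [IsGalois K M]

/-- **Hecke characters of nontrivial type**: everything is analytic for `Re s > 0`. -/
theorem linC_nt {𝔣 : Ideal (𝓞 K)} {k : (K →+* ℂ) → ℤ} {ψ : Ideal (𝓞 K) →*₀ ℂ}
    (h : IsHecke 𝔣 k 0 ψ) (hk : NT k) :
    LinC M (fun v => ψ v.asIdeal) {s : ℂ | 0 < s.re} := by
  intro H lam0
  have hfix := fixer_fixedField (K := K) (M := M) H
  have hgal : IsGalois (IntermediateField.fixedField H) M := inferInstance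
  let lam : fixer K (IntermediateField.fixedField H) M →* ℂˣ :=
    lam0.comp (Subgroup.inclusion (le_of_eq hfix))
  have h2 : induced (fixer K (IntermediateField.fixedField H) M) lam = induced H lam0 :=
    induced_congr hfix fun x hx hx' => rfl
  rw [← h2]
  obtain ⟨𝔪, η, htop, h3, ⟨E, hE1, hE2, hE3⟩, -⟩ := lin_hecke h lam
  obtain ⟨F, hF, hFL⟩ := entire_nt h3 htop ((nt_comp _).2 hk)
  refine ⟨fun s => E s * F s, ⟨fun s hs => (hE1 s hs).fun_mul (hF.analyticAt s).meromorphicAt,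
    fun s hs => ?_⟩, fun s hs => (hE3 s (by linarith)).1.fun_mul (hF.analyticAt s),
    fun s hs => (hE3 s hs).1.fun_mul (hF.analyticAt s)⟩
  change E s * F s = _
  rw [hE2 s hs, hFL s hs]

/-- **Hecke characters of trivial type**: everything is analytic for `Re s > 0`, `s ≠ 1`. -/
theorem linC_triv {𝔣 : Ideal (𝓞 K)} {k : (K →+* ℂ) → ℤ} {ψ : Ideal (𝓞 K) →*₀ ℂ}
    (h : IsHecke 𝔣 k 0 ψ) (hk : ¬ NT k) :
    LinC M (fun v => ψ v.asIdeal) {s : ℂ | 0 < s.re ∧ s ≠ 1} := by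
  intro H lam0
  have hfix := fixer_fixedField (K := K) (M := M) H
  have hgal : IsGalois (IntermediateField.fixedField H) M := inferInstance
  let lam : fixer K (IntermediateField.fixedField H) M →* ℂˣ :=
    lam0.comp (Subgroup.inclusion (le_of_eq hfix))
  have h2 : induced (fixer K (IntermediateField.fixedField H) M) lam = induced H lam0 :=
    induced_congr hfix fun x hx hx' => rfl
  rw [← h2]
  obtain ⟨𝔪, η, htop, h3, ⟨E, hE1, hE2, hE3⟩, -⟩ := lin_hecke h lam
  obtain ⟨F, hF1, hF2, hF3, -, -⟩ := cont_triv h3 htop (fun h4 => hk ((nt_comp _).1 h4))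
  refine ⟨fun s => E s * F s, ⟨fun s hs => (hE1 s hs).fun_mul (hF1 s hs),
    fun s hs => ?_⟩, fun s hs => (hE3 s (by linarith)).1.fun_mul (hF3 s (by linarith) ?_),
    fun s hs => (hE3 s hs.1).1.fun_mul (hF3 s hs.1 hs.2)⟩
  · change E s * F s = _
    rw [hE2 s hs, hF2 s hs]
  · rintro rfl
    simp at hs

end

end Pool.Agent.H511.Cm
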