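import Pool.Agent.H511.Cm.Rc
import Pool.Graph.R_seed8.W63.HS.TR

/-!
# Representations: multiplicities, eigenvalues and Euler products
-/

set_option autoImplicit false
set_option linter.unusedSectionVars false

namespace Pool.Agent.H511.Cm

open NumberField IsDedekindDomain Filter Topology Pool.Agent.H921R2.TatePole Pool.Agent.W353.NF
  Pool.Agent.Q5.BR Pool.Agent.H541R3.ART Pool.Agent.Q92.AR Pool.Agent.H511.Ex
open Pool.Agent.Q92.RT (induced induced_conj induced_pair class_expand)

section rep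
variable {G : Type} [Group G] [Finite G] {r : ℕ}

/-- the multiplicities of the irreducible characters in a representation -/
theorem char_mult (ρ : Representation ℂ G (Fin r → ℂ)) {χ : G → ℂ} (hχ : χ ∈ Irr G) :
    ∃ m : ℕ, ∑ᶠ g : G, ρ.character g * χ g⁻¹ = (m : ℂ) * (Nat.card G : ℂ) := by
  classical
  have : Fintype G := Fintype.ofFinite G
  obtain ⟨n', σ, hσ, rfl⟩ := hχ
  have hG : (Nat.card G : ℂ) ≠ 0 := by exact_mod_cast Nat.card_pos.ne'
  have : Invertible (Nat.card G : ℂ) := invertibleOfNonzero hG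
  have h := Representation.card_inv_mul_sum_char_mul_char_eq_finrank σ ρ
  refine ⟨Module.finrank ℂ (Representation.IntertwiningMap σ ρ), ?_⟩
  rw [← h, finsum_eq_sum_of_fintype]
  field_simp

/-- a linear character which occurs has an eigenvector -/
theorem eigvec (ρ : Representation ℂ G (Fin r → ℂ)) (l : G →* ℂˣ)
    (h : ∑ᶠ g : G, ρ.character g * ((l g⁻¹ : ℂˣ) : ℂ) ≠ 0) :
    ∃ v : Fin r → ℂ, v ≠ 0 ∧ ∀ g, ρ g v = ((l g : ℂˣ) : ℂ) • v := by
  classical
  have : Fintype G := Fintype.ofFinite G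
  set P : Module.End ℂ (Fin r → ℂ) := ∑ g : G, ((l g⁻¹ : ℂˣ) : ℂ) • ρ g with hP
  have hne : P ≠ 0 := by
    intro h0
    apply h
    have h1 : LinearMap.trace ℂ (Fin r → ℂ) P = 0 := by rw [h0, map_zero]
    rw [hP, map_sum] at h1
    rw [finsum_eq_sum_of_fintype, ← h1]
    refine Finset.sum_congr rfl fun g _ => ?_
    rw [map_smul, smul_eq_mul, mul_comm]
    rfl
  obtain ⟨w, hw⟩ : ∃ w, P w ≠ 0 := by
    by_contra hcon
    push Not at hcon
    exact hne (LinearMap.ext fun w => by rw [hcon w, LinearMap.zero_apply])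
  refine ⟨P w, hw, fun g => ?_⟩
  have h1 : ∀ x : Fin r → ℂ, P x = ∑ g : G, ((l g⁻¹ : ℂˣ) : ℂ) • ρ g x := fun x => by
    rw [hP, LinearMap.sum_apply]
    rfl
  rw [h1, map_sum, Finset.smul_sum]
  refine Fintype.sum_equiv (Equiv.mulLeft g) _ _ fun x => ?_
  rw [Equiv.coe_mulLeft, map_smul, ← Module.End.mul_apply, ← map_mul, smul_smul]
  congr 1
  rw [mul_inv_rev, map_mul, Units.val_mul, mul_comm ((l x⁻¹ : ℂˣ) : ℂ), ← mul_assoc,
    ← Units.val_mul, ← map_mul, mul_inv_cancel, map_one, Units.val_one, one_mul]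

/-- the eigenvalues have absolute value one -/
theorem norm_eig (ρ : Representation ℂ G (Fin r → ℂ)) (g : G) {z : ℂ}
    (hz : z ∈ (ρ g).charpoly.roots) : ‖z‖ = 1 := by
  have h1 : (ρ g).charpoly.IsRoot z := Polynomial.isRoot_of_mem_roots hz
  have h2 : Module.End.HasEigenvalue (ρ g) z :=
    (Module.End.hasEigenvalue_iff_isRoot_charpoly _ _).2 h1
  obtain ⟨v, hv⟩ := h2.exists_hasEigenvector
  have h3 := hv.pow_apply (orderOf g)
  rw [← map_pow, pow_orderOf_eq_one, map_one, Module.End.one_apply] at h3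
  have h4 : z ^ orderOf g = 1 := by
    have h5 : (z ^ orderOf g - 1) • v = 0 := by rw [sub_smul, one_smul, ← h3, sub_self]
    rcases smul_eq_zero.1 h5 with h6 | h6
    · exact sub_eq_zero.1 h6
    · exact absurd h6 hv.2
  exact Complex.norm_eq_one_of_pow_eq_one h4 (orderOf_pos g).ne'

theorem char_pow (ρ : Representation ℂ G (Fin r → ℂ)) (g : G) (n : ℕ) :
    ρ.character (g ^ n) = ((ρ g).charpoly.roots.map fun z => z ^ n).sum := by
  rw [← Pool.Agent.W63.HS.TR.main ℂ (Fin r → ℂ) (ρ g) n]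
  change LinearMap.trace ℂ _ (ρ (g ^ n)) = _
  rw [map_pow]

end rep

theorem hasSum_logs (A : Multiset ℂ) (hA : ∀ z ∈ A, ‖z‖ < 1) :
    HasSum (fun n : ℕ => (A.map fun z => z ^ (n + 1)).sum / ((n + 1 : ℕ) : ℂ))
      ((A.map fun z => -Complex.log (1 - z)).sum) := by
  induction A using Multiset.induction_on with
  | empty => simp
  | cons a A ih =>
    have h1 := (hasSum_log (hA a (Multiset.mem_cons_self a A))).add
      (ih fun z hz => hA z (Multiset.mem_cons_of_mem hz))
    rw [Multiset.map_cons, Multiset.sum_cons]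
    refine h1.congr_fun fun n => ?_
    rw [Multiset.map_cons, Multiset.sum_cons, add_div]

theorem exp_logs (A : Multiset ℂ) (hA : ∀ z ∈ A, ‖z‖ < 1) :
    Complex.exp ((A.map fun z => -Complex.log (1 - z)).sum) = ((A.map fun z => 1 - z).prod)⁻¹ := by
  rw [Complex.exp_multiset_sum, Multiset.map_map, ← Multiset.prod_map_inv]
  congr 1
  refine Multiset.map_congr rfl fun z hz => ?_
  rw [Function.comp_apply, Complex.exp_neg, Complex.exp_log (one_sub_ne (hA z hz))]

section
variable {K M : Type} [Field K] [NumberField K] [Field M] [NumberField M] [Algebra K M]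
  [IsGalois K M] {r : ℕ}

/-- the Euler product of a representation -/
theorem twL_prod {ω : HeightOneSpectrum (𝓞 K) → ℂ} (hω : ∀ v, ‖ω v‖ ≤ 1)
    (hun : ∀ v : HeightOneSpectrum (𝓞 K), Unramified M v)
    (ρ : Representation ℂ (M ≃ₐ[K] M) (Fin r → ℂ)) {s : ℂ} (hs : 1 < s.re) :
    HasProd (fun v : HeightOneSpectrum (𝓞 K) => (((ρ (frob M v)).charpoly.roots.map
      fun z => 1 - z * ω v * (nm v : ℂ) ^ (-s)).prod)⁻¹) (twL M ω ρ.character s) := by
  have hlt : ∀ v : HeightOneSpectrum (𝓞 K), ∀ z ∈ (ρ (frob M v)).charpoly.roots.map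
      (fun z => z * ω v * (nm v : ℂ) ^ (-s)), ‖z‖ < 1 := by
    intro v z hz
    obtain ⟨y, hy, rfl⟩ := Multiset.mem_map.1 hz
    refine norm_fac_lt ?_ v (by linarith)
    rw [norm_mul, norm_eig ρ _ hy, one_mul]
    exact hω v
  have h := (twTerm_summable hω ρ.character hs).hasSum.prod_fiberwise
    (g := fun v => (((ρ (frob M v)).charpoly.roots.map
      (fun z => z * ω v * (nm v : ℂ) ^ (-s))).map fun z => -Complex.log (1 - z)).sum) ?_
  · have h2 := h.cexp
    unfold twL
    refine h2.congr_fun fun v => ?_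
    rw [Function.comp_apply, exp_logs _ (hlt v), Multiset.map_map]
    rfl
  · intro v
    refine (hasSum_logs _ (hlt v)).congr_fun fun n => ?_
    unfold twTerm artTerm
    simp only
    rw [if_pos (hun v), char_pow, Multiset.map_map]
    have h8 : (Ideal.absNorm v.asIdeal : ℂ) = (nm v : ℂ) := rfl
    rw [h8, cpow_succ_mul, div_mul_eq_div_div_swap, div_inv_eq_mul, div_mul_eq_mul_div]
    congr 1
    rw [mul_assoc, ← Multiset.sum_map_mul_right]
    congr 1
    refine Multiset.map_congr rfl fun z _ => ?_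
    rw [Function.comp_apply, mul_pow, mul_pow]
    ring

end

end Pool.Agent.H511.Cm
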