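import Pool.Agent.H511.Cm.FamH
import Pool.Agent.H511.Cm.Hol
import Pool.Agent.H511.Ex.Tw5

/-!
# Hecke characters times Galois representations: the twists by Dirichlet characters
-/

set_option autoImplicit false
set_option linter.unusedSectionVars false

namespace Pool.Agent.H511.Cm

open NumberField IsDedekindDomain Filter Topology Pool.Agent.H921R2.TatePole Pool.Agent.W353.NF
  Pool.Agent.Q5.BR Pool.Agent.H541R3.ART Pool.Agent.Q92.AR Pool.Agent.H302R2 Pool.Agent.H511.Ex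
open Pool.Agent.Q92.RT (induced induced_conj induced_pair class_expand)
open Pool.Agent.Y773 (LI tw)
open Pool.Agent.N172.HS (nrmc IsHecke)

section
variable {K : Type} [Field K] [NumberField K]

/-- the weight `ψ(v) ξ(N v)` -/
noncomputable def psW (ψ : Ideal (𝓞 K) →*₀ ℂ) {q : ℕ} (ξ : DirichletCharacter ℂ q)
    (v : HeightOneSpectrum (𝓞 K)) : ℂ := ψ v.asIdeal * dirW K ξ v

theorem norm_psW {ψ : Ideal (𝓞 K) →*₀ ℂ} (hψ : ∀ 𝔞, ‖ψ 𝔞‖ ≤ 1) {q : ℕ}
    (ξ : DirichletCharacter ℂ q) (v : HeightOneSpectrum (𝓞 K)) : ‖psW ψ ξ v‖ ≤ 1 := by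
  unfold psW
  rw [norm_mul]
  exact mul_le_one₀ (hψ _) (norm_nonneg _) (norm_dirW ξ v)

/-- what is used about the twists of a linear character -/
def HasFamW (M : Type) [Field M] [NumberField M] [Algebra K M] (ψ : Ideal (𝓞 K) →*₀ ℂ)
    (φ : (M ≃ₐ[K] M) → ℂ) (m N : ℕ) (L : (q : ℕ) → DirichletCharacter ℂ q → ℂ → ℂ) : Prop :=
  N ≠ 0 ∧ Pool.Agent.R399.TW.Fm m N L ∧ ∀ (q : ℕ) (ξ : DirichletCharacter ℂ q), 2 ≤ q →
    Nat.Coprime q N → ξ.IsPrimitive →
      Differentiable ℂ (L q ξ) ∧ Cmp (twL M (psW ψ ξ) φ) (L q ξ)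

end

section
variable {K F M : Type} [Field K] [NumberField K] [Field F] [NumberField F] [Field M] [NumberField M]
  [Algebra K F] [Algebra K M] [Algebra F M] [IsScalarTower K F M] [IsGalois K M] [IsGalois F M]

theorem fam_fieldW {𝔣 : Ideal (𝓞 K)} {k : (K →+* ℂ) → ℤ} {ψ : Ideal (𝓞 K) →*₀ ℂ}
    (h : IsHecke 𝔣 k 0 ψ) (lam : fixer K F M →* ℂˣ) :
    ∃ (N : ℕ) (L : (q : ℕ) → DirichletCharacter ℂ q → ℂ → ℂ),
      HasFamW M ψ (induced (fixer K F M) lam) (Module.finrank ℚ F) N L := by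
  set l : (M ≃ₐ[F] M) →* ℂˣ := lam.comp (resF K F M) with hl
  obtain ⟨𝔪, η, htop, h3, -, hval⟩ := lin_hecke h lam
  obtain ⟨𝔤, φ, hφ, heq⟩ := exists_primH h3 htop
  obtain ⟨L, hL, hfm⟩ := fam_any (nt_ctyp _) hφ
  have hφn := norm_leH hφ
  have hψn : ∀ 𝔞, ‖ψ 𝔞‖ ≤ 1 := norm_le h
  refine ⟨Ideal.absNorm 𝔤 * (discr F).natAbs, L, ?_, hfm, ?_⟩
  · refine mul_ne_zero ?_ ?_
    · rw [Ne, Ideal.absNorm_eq_zero_iff]
      exact hφ.ne_bot
    · rw [Ne, Int.natAbs_eq_zero]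
      exact discr_ne_zero F
  intro q ξ hq hqN hξ
  obtain ⟨h1, h2⟩ := hL q ξ hq hqN hξ
  refine ⟨h1, ?_⟩
  have hval' : ∀ v : HeightOneSpectrum (𝓞 F), ¬ 𝔪 ≤ v.asIdeal →
      φ v.asIdeal = ((l (frob M v) : ℂˣ) : ℂ) * upW K (fun v => ψ v.asIdeal) v := by
    intro v hv
    rw [heq _ (coprime_of_not_le hv), hval v hv]
    rfl
  have htw : ∀ 𝔞, ‖tw φ ξ 𝔞‖ ≤ 1 := by
    intro 𝔞
    change ‖φ 𝔞 * ξ ((Ideal.absNorm 𝔞 : ℕ) : ZMod q)‖ ≤ 1
    rw [norm_mul]
    exact mul_le_one₀ (hφn 𝔞) (norm_nonneg _) (DirichletCharacter.norm_le_one ξ _)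
  have hups : ∀ w : HeightOneSpectrum (𝓞 F), psW ψ ξ (w.under (𝓞 K)) ^ rdeg K w =
      upW K (fun v => ψ v.asIdeal) w * dirW F ξ w := by
    intro w
    unfold psW upW
    rw [mul_pow, dirW_under]
  have hB : ∀ v : HeightOneSpectrum (𝓞 F), ‖((l (frob M v) : ℂˣ) : ℂ) *
      (upW K (fun v => ψ v.asIdeal) v * dirW F ξ v)‖ ≤ 1 := by
    intro v
    rw [norm_mul, Pool.Agent.Q92.AR.norm_char l, one_mul, norm_mul]
    exact mul_le_one₀ (norm_upW (fun v => hψn _) v) (norm_nonneg _) (norm_dirW ξ v)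
  -- the three Euler products
  have c1 : Cmp (twL M (psW ψ ξ) (induced (fixer K F M) lam))
      (LP {w : HeightOneSpectrum (𝓞 F) | Unramified M (w.under (𝓞 K))}
        (fun w => ((l (frob M w) : ℂˣ) : ℂ) *
          (upW K (fun v => ψ v.asIdeal) w * dirW F ξ w))) := by
    refine Cmp.of_eq fun s hs => ?_
    rw [twL_induced (norm_psW hψn ξ) lam l (fun y hy => rfl) hs]
    congr 1
    funext w
    rw [hups]
  have c2 : Cmp (LP {w : HeightOneSpectrum (𝓞 F) | Unramified M (w.under (𝓞 K))}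
        (fun w => ((l (frob M w) : ℂˣ) : ℂ) *
          (upW K (fun v => ψ v.asIdeal) w * dirW F ξ w)))
      (LP {w : HeightOneSpectrum (𝓞 F) | ¬ 𝔪 ≤ w.asIdeal}
        (fun v => tw φ ξ v.asIdeal)) := by
    refine LP_compare ?_ ?_ hB (fun v => htw _) ?_
    · refine (above_finite h3.ne_bot).subset ?_
      rintro w ⟨-, hw⟩
      exact not_not.1 hw
    · refine (ramified_above_finite (K := K) (F := F) (M := M)).subset ?_
      rintro w ⟨-, hw⟩
      exact hw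
    · rintro v ⟨-, hv⟩
      change _ = φ v.asIdeal * ξ ((Ideal.absNorm v.asIdeal : ℕ) : ZMod q)
      rw [hval' v hv, mul_assoc]
      rfl
  have c3 : Cmp (LP {w : HeightOneSpectrum (𝓞 F) | ¬ 𝔪 ≤ w.asIdeal}
        (fun v => tw φ ξ v.asIdeal))
      (LP (Set.univ : Set (HeightOneSpectrum (𝓞 F)))
        (fun v => tw φ ξ v.asIdeal)) := by
    refine LP_compare ?_ ?_ (fun v => htw _) (fun v => htw _) (fun v _ => rfl)
    · refine Set.Finite.subset Set.finite_empty ?_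
      rintro w ⟨-, hw⟩
      exact (hw (Set.mem_univ _)).elim
    · refine (above_finite h3.ne_bot).subset ?_
      rintro w ⟨-, hw⟩
      exact not_not.1 hw
  refine c1.trans (c2.trans (c3.trans (Cmp.of_eq fun s hs => ?_)))
  rw [h2 s hs, LI_eq_LP htw hs]

end

section
variable {K M : Type} [Field K] [NumberField K] [Field M] [NumberField M] [Algebra K M]
  [IsGalois K M]

/-- **The twists of a linear character of a subgroup** are a family of Hecke L-functions. -/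
theorem famW {𝔣 : Ideal (𝓞 K)} {k : (K →+* ℂ) → ℤ} {ψ : Ideal (𝓞 K) →*₀ ℂ}
    (h : IsHecke 𝔣 k 0 ψ) (H : Subgroup (M ≃ₐ[K] M)) (lam0 : H →* ℂˣ) :
    ∃ (N : ℕ) (L : (q : ℕ) → DirichletCharacter ℂ q → ℂ → ℂ),
      HasFamW M ψ (induced H lam0) (H.index * Module.finrank ℚ K) N L := by
  have hfix := fixer_fixedField (K := K) (M := M) H
  have hgal : IsGalois (IntermediateField.fixedField H) M := inferInstance
  let lam : fixer K (IntermediateField.fixedField H) M →* ℂˣ :=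
    lam0.comp (Subgroup.inclusion (le_of_eq hfix))
  have h2 : induced (fixer K (IntermediateField.fixedField H) M) lam = induced H lam0 :=
    induced_congr hfix fun x hx hx' => rfl
  rw [← h2, ← finrank_fixed]
  exact fam_fieldW h lam

theorem tw_famsW {𝔣 : Ideal (𝓞 K)} {k : (K →+* ℂ) → ℤ} {ψ : Ideal (𝓞 K) →*₀ ℂ}
    (h : IsHecke 𝔣 k 0 ψ) {n : ℕ} (hn : Detects (M ≃ₐ[K] M) n) :
    ∃ (N : ℕ) (ι : Type) (J : Finset ι) (d Ni : ι → ℕ)
      (L : ι → (q : ℕ) → DirichletCharacter ℂ q → ℂ → ℂ), N ≠ 0 ∧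
      Fams J (n * Module.finrank ℚ K) N d Ni L ∧
      ∀ (q : ℕ) (ξ : DirichletCharacter ℂ q), 2 ≤ q → Nat.Coprime q N → ξ.IsPrimitive →
        ∀ χ ∈ Irr (M ≃ₐ[K] M), MeromorphicOn (TL M (psW ψ ξ) χ) Set.univ ∧
          (∀ s : ℂ, 1 < s.re → TL M (psW ψ ξ) χ s = twL M (psW ψ ξ) χ s) ∧
          ∀ s : ℂ, 0 < s.re → (∀ i ∈ J, L i q ξ s ≠ 0) →
            AnalyticAt ℂ (TL M (psW ψ ξ) χ) s ∧ TL M (psW ψ ξ) χ s ≠ 0 := by
  classical
  have hψn : ∀ 𝔞, ‖ψ 𝔞‖ ≤ 1 := norm_le h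
  have fh : ∀ H : Subgroup (M ≃ₐ[K] M), Finite (H →* ℂˣ) := fun H => finite_hom H
  choose N L hL using fun (H : Subgroup (M ≃ₐ[K] M)) (lam : H →* ℂˣ) => famW h H lam
  let ι : Type := Σ H : Subgroup (M ≃ₐ[K] M), (H →* ℂˣ)
  have fι : Fintype ι := Fintype.ofFinite ι
  refine ⟨∏ i : ι, N i.1 i.2, ι, Finset.univ.filter fun i : ι => i.1.index ≤ n,
    fun i => i.1.index * Module.finrank ℚ K, fun i => N i.1 i.2, fun i => L i.1 i.2, ?_, ?_, ?_⟩
  · exact Finset.prod_ne_zero_iff.2 fun i _ => (hL i.1 i.2).1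
  · have hdvd : ∀ i : ι, N i.1 i.2 ∣ ∏ i : ι, N i.1 i.2 := fun i =>
      Finset.dvd_prod_of_mem (fun i : ι => N i.1 i.2) (Finset.mem_univ i)
    refine ⟨fun i _ => hdvd i, fun i _ => ?_, fun i hi => ?_, fun i _ => (hL i.1 i.2).2.1, ?_⟩
    · exact Nat.mul_pos (Nat.pos_of_ne_zero Subgroup.index_ne_zero_of_finite) Module.finrank_pos
    · exact Nat.mul_le_mul_right _ (Finset.mem_filter.1 hi).2
    · intro i _ q ξ hq hqN hξ s hs h0
      obtain ⟨-, E, -, h3, -⟩ := (hL i.1 i.2).2.2 q ξ hq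
        (Nat.Coprime.coprime_dvd_right (hdvd i) hqN) hξ
      have h4 := h3 s hs
      rw [h0, mul_zero] at h4
      exact twL_ne_zero _ _ _ h4
  · intro q ξ hq hqN hξ χ hχ
    have hf : AllLin M (psW ψ ξ) (fun H lam => L H lam q ξ) := fun H lam =>
      (hL H lam).2.2 q ξ hq (Nat.Coprime.coprime_dvd_right
        (Finset.dvd_prod_of_mem (fun i : ι => N i.1 i.2) (Finset.mem_univ (⟨H, lam⟩ : ι))) hqN) hξ
    refine ⟨TL_mero χ, fun s hs => TL_eq (norm_psW hψn ξ) hf hχ hs, fun s hs hne => ?_⟩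
    exact TL_regular (norm_psW hψn ξ) hf hs hn (fun H lam hH => hne ⟨H, lam⟩ (by
      rw [Finset.mem_filter]
      exact ⟨Finset.mem_univ _, hH⟩)) hχ

/-- the Euler product of a representation -/
theorem twL_prod' {r : ℕ} {ω : HeightOneSpectrum (𝓞 K) → ℂ} (hω : ∀ v, ‖ω v‖ ≤ 1)
    (ρ : Representation ℂ (M ≃ₐ[K] M) (Fin r → ℂ)) {s : ℂ} (hs : 1 < s.re) :
    HasProd (fun v : HeightOneSpectrum (𝓞 K) => open scoped Classical in
      if Unramified M v then (((ρ (frob M v)).charpoly.roots.map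
        fun z => 1 - z * ω v * (nm v : ℂ) ^ (-s)).prod)⁻¹ else 1) (twL M ω ρ.character s) := by
  classical
  have hlt : ∀ v : HeightOneSpectrum (𝓞 K), ∀ z ∈ (ρ (frob M v)).charpoly.roots.map
      (fun z => z * ω v * (nm v : ℂ) ^ (-s)), ‖z‖ < 1 := by
    intro v z hz
    obtain ⟨y, hy, rfl⟩ := Multiset.mem_map.1 hz
    refine norm_fac_lt ?_ v (by linarith)
    rw [norm_mul, norm_eig ρ _ hy, one_mul]
    exact hω v
  have h := (twTerm_summable hω ρ.character hs).hasSum.prod_fiberwise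
    (g := fun v => if Unramified M v then (((ρ (frob M v)).charpoly.roots.map
      (fun z => z * ω v * (nm v : ℂ) ^ (-s))).map fun z => -Complex.log (1 - z)).sum else 0) ?_
  · have h2 := h.cexp
    unfold twL
    refine h2.congr_fun fun v => ?_
    rw [Function.comp_apply]
    by_cases hv : Unramified M v
    · rw [if_pos hv, if_pos hv, exp_logs _ (hlt v), Multiset.map_map]
      rfl
    · rw [if_neg hv, if_neg hv, Complex.exp_zero]
  · intro v
    by_cases hv : Unramified M v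
    · rw [if_pos hv]
      refine (hasSum_logs _ (hlt v)).congr_fun fun n => ?_
      unfold twTerm artTerm
      simp only
      rw [if_pos hv, char_pow, Multiset.map_map]
      have h8 : (Ideal.absNorm v.asIdeal : ℂ) = (nm v : ℂ) := rfl
      rw [h8, cpow_succ_mul, div_mul_eq_div_div_swap, div_inv_eq_mul, div_mul_eq_mul_div]
      congr 1
      rw [mul_assoc, ← Multiset.sum_map_mul_right]
      congr 1
      refine Multiset.map_congr rfl fun z _ => ?_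
      rw [Function.comp_apply, mul_pow, mul_pow]
      ring
    · rw [if_neg hv]
      have e2 : (fun n => twTerm M ω ρ.character s (v, n)) = fun _ => 0 := by
        funext n
        unfold twTerm artTerm
        rw [if_neg hv, zero_mul]
      rw [e2]
      exact hasSum_zero

/-- the continuation of the L-function of a representation -/
theorem rep_reg {ω : HeightOneSpectrum (𝓞 K) → ℂ} (hω : ∀ v, ‖ω v‖ ≤ 1)
    (hTm : ∀ χ ∈ Irr (M ≃ₐ[K] M), MeromorphicOn (TL M ω χ) Set.univ)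
    (hTe : ∀ χ ∈ Irr (M ≃ₐ[K] M), ∀ s : ℂ, 1 < s.re → TL M ω χ s = twL M ω χ s) {r : ℕ}
    (ρ : Representation ℂ (M ≃ₐ[K] M) (Fin r → ℂ)) :
    ∃ g : ℂ → ℂ, MeromorphicOn g Set.univ ∧
      (∀ s : ℂ, 1 < s.re → HasProd (fun v : HeightOneSpectrum (𝓞 K) =>
        open scoped Classical in
        if Unramified M v then (((ρ (frob M v)).charpoly.roots.map
          fun z => 1 - z * ω v * (nm v : ℂ) ^ (-s)).prod)⁻¹ else 1) (g s)) ∧
      ∀ s₀ : ℂ, (∀ χ ∈ Irr (M ≃ₐ[K] M), AnalyticAt ℂ (TL M ω χ) s₀ ∧ TL M ω χ s₀ ≠ 0) →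
        AnalyticAt ℂ g s₀ ∧ g s₀ ≠ 0 := by
  classical
  have fG : Fintype (M ≃ₐ[K] M) := Fintype.ofFinite _
  choose! m hm using fun (χ : (M ≃ₐ[K] M) → ℂ) (hχ : χ ∈ Irr (M ≃ₐ[K] M)) => char_mult ρ hχ
  have hexp : ρ.character = fun g => ∑ χ ∈ irrF (M ≃ₐ[K] M), (m χ : ℂ) * χ g := by
    funext g
    refine class_expand (fun g x => ρ.char_conj g x) (fun χ hχ => ?_) g
    rw [← hm χ hχ, finsum_eq_sum_of_fintype]
  refine ⟨fun s => ∏ χ ∈ irrF (M ≃ₐ[K] M), TL M ω χ s ^ m χ, ?_, ?_, ?_⟩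
  · intro s hs
    exact MeromorphicAt.fun_prod fun χ hχ => (hTm χ (mem_irrF.1 hχ) s hs).fun_pow _
  · intro s hs
    have h1 := twL_prod' hω ρ hs
    have h2 : twL M ω ρ.character s = ∏ χ ∈ irrF (M ≃ₐ[K] M), TL M ω χ s ^ m χ := by
      rw [hexp, twL_sum hω (irrF (M ≃ₐ[K] M)) m (fun χ => χ) hs]
      exact Finset.prod_congr rfl fun χ hχ => by rw [hTe χ (mem_irrF.1 hχ) s hs]
    rw [h2] at h1
    exact h1
  · intro s₀ hs
    refine ⟨Finset.analyticAt_fun_prod _ fun χ hχ => (hs χ (mem_irrF.1 hχ)).1.fun_pow _, ?_⟩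
    exact Finset.prod_ne_zero_iff.2 fun χ hχ => pow_ne_zero _ (hs χ (mem_irrF.1 hχ)).2

end

end Pool.Agent.H511.Cm
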