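import Pool.Agent.H511.Ex.Main
import Pool.Agent.H511.Ex.Tw1
import Pool.Graph.R_pool_sql_team_seeded_3997aac3.Q280.AR.Tow

/-!
# Twisted Artin L-functions over intermediate fields
-/

set_option autoImplicit false
set_option linter.unusedSectionVars false

namespace Pool.Agent.H511.Cm

open NumberField IsDedekindDomain Filter Topology Pool.Agent.H921R2.TatePole Pool.Agent.W353.NF
  Pool.Agent.Q5.BR Pool.Agent.H541R3.ART Pool.Agent.Q92.AR Pool.Agent.H511.Ex
open Pool.Agent.Q92.RT (induced induced_conj induced_pair class_expand)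

/-- the weight over an extension: `ω` composed with the norm -/
noncomputable def upW (K : Type) {F : Type} [Field K] [NumberField K] [Field F] [NumberField F]
    [Algebra K F] (ω : HeightOneSpectrum (𝓞 K) → ℂ) (w : HeightOneSpectrum (𝓞 F)) : ℂ :=
  ω (w.under (𝓞 K)) ^ rdeg K w

theorem norm_upW {K F : Type} [Field K] [NumberField K] [Field F] [NumberField F]
    [Algebra K F] {ω : HeightOneSpectrum (𝓞 K) → ℂ} (hω : ∀ v, ‖ω v‖ ≤ 1)
    (w : HeightOneSpectrum (𝓞 F)) : ‖upW K ω w‖ ≤ 1 := by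
  unfold upW
  rw [norm_pow]
  exact pow_le_one₀ (norm_nonneg _) (hω _)

section
variable {K F F' : Type} [Field K] [NumberField K] [Field F] [NumberField F] [Field F']
  [NumberField F'] [Algebra K F] [Algebra K F'] [Algebra F F'] [IsScalarTower K F F']

theorem upW_upW (ω : HeightOneSpectrum (𝓞 K) → ℂ) (w : HeightOneSpectrum (𝓞 F')) :
    upW F (upW K (F := F) ω) w = upW K ω w := by
  unfold upW
  rw [← pow_mul, Pool.Agent.Q280.AR.under_under K F F' w, Pool.Agent.Q280.AR.rdeg_tower K F F' w]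

end

section
variable {K F F' M : Type} [Field K] [NumberField K] [Field F] [NumberField F] [Field F']
  [NumberField F'] [Field M] [NumberField M]
  [Algebra K F] [Algebra K M] [Algebra F M] [IsScalarTower K F M]
  [Algebra K F'] [Algebra F F'] [Algebra F' M] [IsScalarTower K F' M] [IsScalarTower F F' M]
  [IsScalarTower K F F']
  [IsGalois K M] [IsGalois F M] [IsGalois F' M]

/-- **The L-function of a linear character of the group of `M/F'` does not depend on the base field**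
(up to the Euler factors at finitely many primes). -/
theorem cmp_lin {ω : HeightOneSpectrum (𝓞 K) → ℂ} (hω : ∀ v, ‖ω v‖ ≤ 1)
    (l : (M ≃ₐ[F'] M) →* ℂˣ) :
    Cmp (twL M (upW K (F := F) ω) (induced (fixer F F' M) (chF F l)))
      (twL M ω (induced (fixer K F' M) (chF K l))) := by
  have hf1 : ({w : HeightOneSpectrum (𝓞 F') | Unramified M (w.under (𝓞 F))} \
      {w : HeightOneSpectrum (𝓞 F') | Unramified M (w.under (𝓞 K))}).Finite := by
    refine (ramified_above_finite (K := K) (F := F') (M := M)).subset ?_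
    rintro w ⟨-, hw⟩
    exact hw
  have hf2 : ({w : HeightOneSpectrum (𝓞 F') | Unramified M (w.under (𝓞 K))} \
      {w : HeightOneSpectrum (𝓞 F') | Unramified M (w.under (𝓞 F))}).Finite := by
    refine (ramified_above_finite (K := F) (F := F') (M := M)).subset ?_
    rintro w ⟨-, hw⟩
    exact hw
  have hχ : ∀ w : HeightOneSpectrum (𝓞 F'),
      ‖((l (frob M w) : ℂˣ) : ℂ) * upW K ω w‖ ≤ 1 := fun w => by
    rw [norm_mul, norm_char l, one_mul]
    exact norm_upW hω w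
  obtain ⟨E, hE1, hE2, hE3⟩ := LP_compare
    (χ := fun w => ((l (frob M w) : ℂˣ) : ℂ) * upW K ω w)
    (χ' := fun w => ((l (frob M w) : ℂˣ) : ℂ) * upW K ω w) hf1 hf2 hχ hχ (fun w _ => rfl)
  refine ⟨E, hE1, fun s hs => ?_, hE3⟩
  rw [twL_induced (norm_upW hω) (chF F l) l (fun y hy => chF_apply l y hy) hs,
    twL_induced hω (chF K l) l (fun y hy => chF_apply l y hy) hs]
  have e1 : (fun w : HeightOneSpectrum (𝓞 F') => ((l (frob M w) : ℂˣ) : ℂ) *
      upW K (F := F) ω (w.under (𝓞 F)) ^ rdeg F w) =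
      fun w => ((l (frob M w) : ℂˣ) : ℂ) * upW K ω w := by
    funext w
    rw [← upW_upW (F := F) ω w]
    rfl
  rw [e1]
  exact hE2 s hs

end

section
variable {K F M : Type} [Field K] [NumberField K] [Field F] [NumberField F] [Field M] [NumberField M]
  [Algebra K F] [Algebra K M] [Algebra F M] [IsScalarTower K F M] [IsGalois K M] [IsGalois F M]

theorem cmp_sub {ω : HeightOneSpectrum (𝓞 K) → ℂ} (hω : ∀ v, ‖ω v‖ ≤ 1)
    (X : Subgroup (M ≃ₐ[F] M)) (ψ : X →* ℂˣ) :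
    ∃ (X' : Subgroup (M ≃ₐ[K] M)) (ψ' : X' →* ℂˣ) (e : X ≃* X'),
      Cmp (twL M (upW K ω) (induced X ψ)) (twL M ω (induced X' ψ')) ∧
      (∀ x : X, ((e x : X') : M ≃ₐ[K] M) = (x : M ≃ₐ[F] M).restrictScalars K) ∧
      ∀ x : X, ψ' (e x) = ψ x := by
  have h := fixer_fixedField (K := F) (M := M) X
  let F' := IntermediateField.fixedField X
  have i1 : IsScalarTower K F' M := IsScalarTower.of_algebraMap_eq fun x => rfl
  have i2 : IsScalarTower F F' M := inferInstance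
  have i3 : IsScalarTower K F F' := inferInstance
  have hgal : IsGalois F' M := inferInstance
  let e1 : X ≃* fixer F F' M := MulEquiv.subgroupCongr h.symm
  let e2 : X ≃* (M ≃ₐ[F'] M) := e1.trans (eF F F' M).symm
  let l : (M ≃ₐ[F'] M) →* ℂˣ := ψ.comp e2.symm.toMonoidHom
  have h2 : induced (fixer F F' M) (chF F l) = induced X ψ := by
    refine induced_congr h fun x hx hx' => ?_
    change ψ (e2.symm ((eF F F' M).symm ⟨x, hx⟩)) = ψ ⟨x, hx'⟩
    congr 1
    change e1.symm ((eF F F' M) ((eF F F' M).symm ⟨x, hx⟩)) = _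
    rw [MulEquiv.apply_symm_apply]
    rfl
  refine ⟨fixer K F' M, chF K l, e2.trans (eF K F' M), ?_, ?_, ?_⟩
  · rw [← h2]
    exact cmp_lin (K := K) (F := F) (F' := F') (M := M) hω l
  · intro x
    have h3 : ((eF F F' M ((eF F F' M).symm (e1 x)) : fixer F F' M) : M ≃ₐ[F] M) = x := by
      rw [MulEquiv.apply_symm_apply]
      rfl
    rw [eF_coe] at h3
    change ((eF K F' M ((eF F F' M).symm (e1 x)) : fixer K F' M) : M ≃ₐ[K] M) = _
    rw [eF_coe, ← h3]
    rfl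
  · intro x
    change ψ (e2.symm ((eF K F' M).symm (eF K F' M (e2 x)))) = _
    rw [MulEquiv.symm_apply_apply, MulEquiv.symm_apply_apply]

/-- the L-function of a sum, natural multiplicities -/
theorem twL_sum {ω : HeightOneSpectrum (𝓞 K) → ℂ} (hω : ∀ v, ‖ω v‖ ≤ 1) {ι : Type*}
    (T : Finset ι) (m : ι → ℕ) (φ : ι → (M ≃ₐ[K] M) → ℂ) {s : ℂ} (hs : 1 < s.re) :
    twL M ω (fun g => ∑ i ∈ T, (m i : ℂ) * φ i g) s = ∏ i ∈ T, twL M ω (φ i) s ^ m i := by
  have h := twL_sum_int hω T (fun i => (m i : ℤ)) φ hs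
  simp only [Int.cast_natCast, zpow_natCast] at h
  exact h

/-- **The L-function of a character of the group of `M/F`** is the product of the L-functions of the
irreducible characters `ψ` of the group of `M/K` to the powers `⟨ψ|, χ⟩`, up to finitely many Euler
factors. -/
theorem cmp_irr {ω : HeightOneSpectrum (𝓞 K) → ℂ} (hω : ∀ v, ‖ω v‖ ≤ 1)
    {χ : (M ≃ₐ[F] M) → ℂ} (hχ : χ ∈ Irr (M ≃ₐ[F] M)) (v : ((M ≃ₐ[K] M) → ℂ) → ℕ)
    (hv : ∀ ψ ∈ Irr (M ≃ₐ[K] M), ∑ᶠ g : M ≃ₐ[F] M, ψ (inc K F M g) * χ g⁻¹ =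
      (v ψ : ℂ) * (Nat.card (M ≃ₐ[F] M) : ℂ)) :
    Cmp (twL M (upW K ω) χ) (fun s => ∏ ψ ∈ irrF (M ≃ₐ[K] M), twL M ω ψ s ^ v ψ) := by
  classical
  have fG : Fintype (M ≃ₐ[F] M) := Fintype.ofFinite _
  have fΓ : Fintype (M ≃ₐ[K] M) := Fintype.ofFinite _
  obtain ⟨ι, _, H, ψ, n, h⟩ := brauer _ χ hχ
  choose H' ψ' e hc he hψ using fun i => cmp_sub (K := K) hω (H i) (ψ i)
  have h1 : χ = fun g => ∑ i, (n i : ℂ) * induced (H i) (ψ i) g := funext h
  have h2 : Cmp (twL M (upW K ω) χ)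
      (fun s => ∏ i, twL M (upW K ω) (induced (H i) (ψ i)) s ^ n i) := by
    refine Cmp.of_eq fun s hs => ?_
    rw [h1, twL_sum_int (norm_upW hω) Finset.univ n (fun i => induced (H i) (ψ i)) hs]
  have h3 : Cmp (fun s => ∏ i, twL M (upW K ω) (induced (H i) (ψ i)) s ^ n i)
      (fun s => ∏ i, twL M ω (induced (H' i) (ψ' i)) s ^ n i) :=
    Cmp.zprod Finset.univ _ _ n fun i _ => hc i
  refine h2.trans (h3.trans (Cmp.of_eq fun s hs => ?_))
  rw [← twL_sum_int hω Finset.univ n (fun i => induced (H' i) (ψ' i)) hs,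
    ← twL_sum hω (irrF (M ≃ₐ[K] M)) v (fun ψ => ψ) hs]
  congr 1
  funext g
  refine class_expand (m := fun ψ => (v ψ : ℂ)) (θ := fun g => ∑ i, (n i : ℂ) *
    induced (H' i) (ψ' i) g) (fun g x => ?_) (fun φ hφ => ?_) g
  · exact Finset.sum_congr rfl fun i _ => by rw [induced_conj]
  -- the multiplicities
  have hcl : ∀ g x : M ≃ₐ[K] M, φ (x * g * x⁻¹) = φ g := fun g x => Irr.conj hφ g x
  have hcl' : ∀ g x : M ≃ₐ[F] M, φ (inc K F M (x * g * x⁻¹)) = φ (inc K F M g) := by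
    intro g x
    rw [map_mul, map_mul, map_inv, hcl]
  let m : ι → ℂ := fun i => (∑ᶠ h : H i, φ (inc K F M h) * (((ψ i h)⁻¹ : ℂˣ) : ℂ)) /
    (Nat.card (H i) : ℂ)
  have hm : ∀ i, ∑ᶠ h : H i, φ (inc K F M h) * (((ψ i h)⁻¹ : ℂˣ) : ℂ) =
      m i * (Nat.card (H i) : ℂ) := by
    intro i
    have hne : (Nat.card (H i) : ℂ) ≠ 0 := by exact_mod_cast Nat.card_pos.ne'
    exact (div_mul_cancel₀ _ hne).symm
  have hm' : ∀ i, ∑ᶠ h : H' i, φ h * (((ψ' i h)⁻¹ : ℂˣ) : ℂ) = m i * (Nat.card (H' i) : ℂ) := by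
    intro i
    rw [← Nat.card_congr (e i).toEquiv, ← hm i]
    refine (finsum_eq_of_bijective (e i) (e i).bijective fun x => ?_).symm
    rw [hψ i x, he i x]
    rfl
  have h4 : ∀ i, ∑ g : M ≃ₐ[K] M, induced (H' i) (ψ' i) g * φ g⁻¹ = m i * Nat.card (M ≃ₐ[K] M) :=
    fun i => induced_pair (H' i) (ψ' i) hcl (hm' i)
  have h5 : ∀ i, ∑ g : M ≃ₐ[F] M, induced (H i) (ψ i) g * φ (inc K F M g⁻¹) =
      m i * Nat.card (M ≃ₐ[F] M) :=
    fun i => induced_pair (χ := fun g => φ (inc K F M g)) (H i) (ψ i) hcl' (hm i)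
  have h6 : (v φ : ℂ) * (Nat.card (M ≃ₐ[F] M) : ℂ) = (∑ i, (n i : ℂ) * m i) *
      (Nat.card (M ≃ₐ[F] M) : ℂ) := by
    rw [← hv φ hφ, finsum_eq_sum_of_fintype]
    have h7 : ∑ g : M ≃ₐ[F] M, φ (inc K F M g) * χ g⁻¹ =
        ∑ g : M ≃ₐ[F] M, χ g * φ (inc K F M g⁻¹) := by
      refine Fintype.sum_equiv (Equiv.inv (M ≃ₐ[F] M)) _ _ fun g => ?_
      simp only [Equiv.inv_apply, inv_inv]
      rw [mul_comm]
    rw [h7, Finset.sum_mul]
    have h8 : ∀ g : M ≃ₐ[F] M, χ g * φ (inc K F M g⁻¹) =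
        ∑ i, (n i : ℂ) * (induced (H i) (ψ i) g * φ (inc K F M g⁻¹)) := by
      intro g
      rw [h g, Finset.sum_mul]
      exact Finset.sum_congr rfl fun i _ => by rw [mul_assoc]
    rw [Finset.sum_congr rfl fun g _ => h8 g, Finset.sum_comm]
    refine Finset.sum_congr rfl fun i _ => ?_
    rw [← Finset.mul_sum, h5 i, mul_assoc]
  have hG : (Nat.card (M ≃ₐ[F] M) : ℂ) ≠ 0 := by exact_mod_cast Nat.card_pos.ne'
  have h9 : (v φ : ℂ) = ∑ i, (n i : ℂ) * m i := mul_right_cancel₀ hG h6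
  rw [h9, Finset.sum_mul]
  have h10 : ∀ g : M ≃ₐ[K] M, (∑ i, (n i : ℂ) * induced (H' i) (ψ' i) g) * φ g⁻¹ =
      ∑ i, (n i : ℂ) * (induced (H' i) (ψ' i) g * φ g⁻¹) := by
    intro g
    rw [Finset.sum_mul]
    exact Finset.sum_congr rfl fun i _ => by rw [mul_assoc]
  rw [Finset.sum_congr rfl fun g _ => h10 g, Finset.sum_comm]
  refine Finset.sum_congr rfl fun i _ => ?_
  rw [← Finset.mul_sum, h4 i, mul_assoc]

end

end Pool.Agent.H511.Cm
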